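import Mathlib

/-!
# Involutive commutative residuated lattices and their `ℓ`-bimonoidal subreducts: definitions
-/

set_option autoImplicit false

namespace Pool.Agent.K9h30.KN

/-- Involutive commutative residuated lattices: a lattice and a commutative monoid `(A, *, 1)` with a
residual `imp x z`, the largest `y` with `x * y ≤ z`, and with a constant `ff` (written `0` in the
problem) such that `¬ ¬ x = x` for `¬ x = imp x ff`. -/
class InCRL (A : Type) extends Lattice A, CommMonoid A where
  /-- the residual `x → z` -/
  imp : A → A → A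
  /-- the constant `0` -/
  ff : A
  residuated : ∀ x y z : A, x * y ≤ z ↔ y ≤ imp x z
  involutive : ∀ x : A, imp (imp x ff) ff = x

/-- `¬ x = x → 0` -/
def neg {A : Type} [InCRL A] (x : A) : A := InCRL.imp x InCRL.ff

/-- `x + y = ¬ (¬ x * ¬ y)` -/
def plus {A : Type} [InCRL A] (x y : A) : A := neg (neg x * neg y)

/-- An algebra in the signature `(∧, ∨, ·, +, 1, 0)` with the universe `A` (no axioms). -/
structure Sig (A : Type) where
  meet : A → A → A
  join : A → A → A
  mul : A → A → A
  add : A → A → A
  one : A
  zero : A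

/-- `f` is a homomorphism from `(A, S)` to `(B, T)`. -/
structure IsHom {A B : Type} (S : Sig A) (T : Sig B) (f : A → B) : Prop where
  meet : ∀ x y, f (S.meet x y) = T.meet (f x) (f y)
  join : ∀ x y, f (S.join x y) = T.join (f x) (f y)
  mul : ∀ x y, f (S.mul x y) = T.mul (f x) (f y)
  add : ∀ x y, f (S.add x y) = T.add (f x) (f y)
  one : f S.one = T.one
  zero : f S.zero = T.zero

/-- The direct product of the algebras `(A i, S i)`. -/
def Sig.pi {I : Type} {A : I → Type} (S : ∀ i, Sig (A i)) : Sig (∀ i, A i) where
  meet x y := fun i => (S i).meet (x i) (y i)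
  join x y := fun i => (S i).join (x i) (y i)
  mul x y := fun i => (S i).mul (x i) (y i)
  add x y := fun i => (S i).add (x i) (y i)
  one := fun i => (S i).one
  zero := fun i => (S i).zero

/-- The `ℓ`-bimonoidal reduct `(C, ∧, ∨, ·, +, 1, 0)` of an involutive commutative residuated
lattice. -/
def reduct (C : Type) [InCRL C] : Sig C where
  meet x y := x ⊓ y
  join x y := x ⊔ y
  mul x y := x * y
  add x y := plus x y
  one := 1
  zero := InCRL.ff

/-- `C` is in the knotted variety given by `x ^ m ≤ x ^ n`. -/
def Knotted (m n : ℕ) (C : Type) [InCRL C] : Prop := ∀ x : C, x ^ m ≤ x ^ n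

/-- `(A, S)` is an `ℓ`-bimonoidal subreduct of the knotted variety given by `x ^ m ≤ x ^ n`: it is
isomorphic to a subalgebra of the `ℓ`-bimonoidal reduct of a member `C` of the variety, that is, it
has an embedding into this reduct. -/
def IsSubreduct (m n : ℕ) (A : Type) (S : Sig A) : Prop :=
  ∃ (C : Type) (_ : InCRL C), Knotted m n C ∧
    ∃ f : A → C, Function.Injective f ∧ IsHom S (reduct C) f

/-- The class `K` of algebras in the signature `(∧, ∨, ·, +, 1, 0)` forms a variety: it is closed
under homomorphic images, (isomorphic copies of) subalgebras and direct products. -/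
structure FormsVariety (K : ∀ A : Type, Sig A → Prop) : Prop where
  hom : ∀ (A B : Type) (S : Sig A) (T : Sig B) (f : A → B),
    K A S → IsHom S T f → Function.Surjective f → K B T
  sub : ∀ (A B : Type) (S : Sig A) (T : Sig B) (f : B → A),
    K A S → IsHom T S f → Function.Injective f → K B T
  prod : ∀ (I : Type) (A : I → Type) (S : ∀ i, Sig (A i)),
    (∀ i, K (A i) (S i)) → K (∀ i, A i) (Sig.pi S)

/-- Commutative `ℓ`-bimonoids with the axioms that hold in the reducts (auxiliary class). -/
class CBiMon (A : Type) extends Lattice A, CommMonoid A, AddCommMonoid A where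
  mul_sup' : ∀ x y z : A, x * (y ⊔ z) = x * y ⊔ x * z
  add_inf' : ∀ x y z : A, x + y ⊓ z = (x + y) ⊓ (x + z)
  hemi : ∀ x y z : A, x * (y + z) ≤ x * y + z

/-- The algebra given by a commutative `ℓ`-bimonoid. -/
def CBiMon.sig (A : Type) [CBiMon A] : Sig A where
  meet x y := x ⊓ y
  join x y := x ⊔ y
  mul x y := x * y
  add x y := x + y
  one := 1
  zero := 0

/-- The quasi-inequalities which hold in the subreducts of the variety `x ^ m ≤ x ^ n`. -/
def QMN (m n : ℕ) (A : Type) [CBiMon A] : Prop :=
  ∀ (a b : Fin m → A) (c d : A),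
    (∀ N : Fin n → Fin m, (∏ k, a (N k)) * d ≤ (∑ k, b (N k)) + c) →
      (∏ i, a i) * d ≤ (∑ i, b i) + c

end Pool.Agent.K9h30.KN
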