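import Mathlib
import Pool.Agent.K9h30.KN.Defs

/-!
# Phase spaces

For a commutative monoid `W` and a subset `F` the closed sets form an involutive commutative
residuated lattice.
-/

set_option autoImplicit false

namespace Pool.Agent.K9h30.KN

section

variable {W : Type} [CommMonoid W] (F : Set W)

/-- the orthogonal complement -/
def perp (X : Set W) : Set W := {w | ∀ x ∈ X, w * x ∈ F}

variable {F}

theorem perp_anti {X Y : Set W} (h : X ⊆ Y) : perp F Y ⊆ perp F X := fun _ hw x hx => hw x (h hx)

theorem sub_pp (X : Set W) : X ⊆ perp F (perp F X) := fun x hx w hw => by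
  rw [mul_comm]
  exact hw x hx

theorem ppp (X : Set W) : perp F (perp F (perp F X)) = perp F X :=
  Set.Subset.antisymm (perp_anti (sub_pp X)) (sub_pp _)

variable (F)

/-- closed sets -/
@[ext]
structure Cl where
  car : Set W
  closed : perp F (perp F car) = car

/-- a complement is closed -/
def ofPerp (S : Set W) : Cl F := ⟨perp F S, ppp S⟩

variable {F}

instance : PartialOrder (Cl F) where
  le X Y := X.car ⊆ Y.car
  le_refl _ := Set.Subset.refl _
  le_trans _ _ _ h1 h2 := Set.Subset.trans h1 h2
  le_antisymm _ _ h1 h2 := Cl.ext (Set.Subset.antisymm h1 h2)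

theorem le_iff {X Y : Cl F} : X ≤ Y ↔ X.car ⊆ Y.car := Iff.rfl

theorem pp_le {S : Set W} {T : Cl F} : ofPerp F (perp F S) ≤ T ↔ S ⊆ T.car := by
  constructor
  · intro h
    exact (sub_pp S).trans h
  · intro h
    rw [le_iff, ← T.closed]
    exact perp_anti (perp_anti h)

instance : Lattice (Cl F) where
  sup X Y := ofPerp F (perp F (X.car ∪ Y.car))
  le_sup_left X Y := (Set.subset_union_left).trans (sub_pp _)
  le_sup_right X Y := (Set.subset_union_right).trans (sub_pp _)
  sup_le X Y Z h1 h2 := pp_le.2 (Set.union_subset h1 h2)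
  inf X Y := ⟨X.car ∩ Y.car, by
    apply Set.Subset.antisymm _ (sub_pp _)
    apply Set.subset_inter
    · conv_rhs => rw [← X.closed]
      exact perp_anti (perp_anti Set.inter_subset_left)
    · conv_rhs => rw [← Y.closed]
      exact perp_anti (perp_anti Set.inter_subset_right)⟩
  inf_le_left X Y := Set.inter_subset_left
  inf_le_right X Y := Set.inter_subset_right
  le_inf X Y Z h1 h2 := Set.subset_inter h1 h2

theorem inf_car (X Y : Cl F) : (X ⊓ Y).car = X.car ∩ Y.car := rfl

/-- the products of the elements -/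
def dot (X Y : Cl F) : Set W := {p | ∃ x ∈ X.car, ∃ y ∈ Y.car, p = x * y}

instance : Mul (Cl F) := ⟨fun X Y => ofPerp F (perp F (dot X Y))⟩

instance : One (Cl F) := ⟨ofPerp F F⟩

theorem mul_le {X Y T : Cl F} : X * Y ≤ T ↔ ∀ x ∈ X.car, ∀ y ∈ Y.car, x * y ∈ T.car := by
  refine pp_le.trans ?_
  constructor
  · intro h x hx y hy
    exact h ⟨x, hx, y, hy, rfl⟩
  · rintro h _ ⟨x, hx, y, hy, rfl⟩
    exact h x hx y hy

/-- the residual -/
def res (X T : Cl F) : Cl F := ⟨{w | ∀ x ∈ X.car, w * x ∈ T.car}, by
  apply Set.Subset.antisymm _ (sub_pp _)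
  intro w hw x hx
  rw [← T.closed]
  intro v hv
  have h1 : v * x ∈ perp F {w | ∀ x ∈ X.car, w * x ∈ T.car} := by
    intro u hu
    have h2 := hv (u * x) (hu x hx)
    rwa [show v * x * u = v * (u * x) by ac_rfl]
  have h3 := hw (v * x) h1
  rwa [show w * x * v = w * (v * x) by ac_rfl]⟩

theorem mul_le_res {X Y T : Cl F} : X * Y ≤ T ↔ X ≤ res Y T := by
  rw [mul_le]
  exact Iff.rfl

theorem one_car_perp : perp F {1} = F := by
  ext w
  simp [perp]

theorem ppF : perp F (perp F F) = F := by
  have h := ppp (F := F) ({1} : Set W)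
  rwa [one_car_perp] at h

theorem one_le_iff {T : Cl F} : (1 : Cl F) ≤ T ↔ (1 : W) ∈ T.car := by
  have h : (1 : Cl F) = ofPerp F (perp F {1}) := by
    rw [one_car_perp]
    rfl
  rw [h, pp_le, Set.singleton_subset_iff]

theorem cl_mul_comm (X Y : Cl F) : X * Y = Y * X := by
  apply eq_of_forall_ge_iff
  intro T
  rw [mul_le, mul_le]
  constructor
  · intro h x hx y hy
    rw [mul_comm]
    exact h y hy x hx
  · intro h x hx y hy
    rw [mul_comm]
    exact h y hy x hx

theorem cl_mul_assoc (X Y Z : Cl F) : X * Y * Z = X * (Y * Z) := by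
  apply eq_of_forall_ge_iff
  intro T
  have h1 : X * Y * Z ≤ T ↔ ∀ x ∈ X.car, ∀ y ∈ Y.car, ∀ z ∈ Z.car, x * y * z ∈ T.car := by
    rw [mul_le_res, mul_le]
    exact Iff.rfl
  have h2 : X * (Y * Z) ≤ T ↔ ∀ x ∈ X.car, ∀ y ∈ Y.car, ∀ z ∈ Z.car, x * y * z ∈ T.car := by
    rw [cl_mul_comm, mul_le_res, mul_le]
    constructor
    · intro h x hx y hy z hz
      have := h y hy z hz x hx
      rwa [show x * y * z = y * z * x by ac_rfl]
    · intro h y hy z hz x hx
      have := h x hx y hy z hz
      rwa [show y * z * x = x * y * z by ac_rfl]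
  rw [h1, h2]

theorem cl_one_mul (X : Cl F) : 1 * X = X := by
  apply eq_of_forall_ge_iff
  intro T
  rw [mul_le_res, one_le_iff]
  constructor
  · intro h x hx
    simpa using h x hx
  · intro h x hx
    simpa using h hx

instance : CommMonoid (Cl F) where
  mul_assoc := cl_mul_assoc
  one_mul := cl_one_mul
  mul_one X := by rw [cl_mul_comm, cl_one_mul]
  mul_comm := cl_mul_comm

/-- the constant `0` -/
def clff : Cl F := ⟨F, ppF⟩

theorem res_ff (X : Cl F) : (res X clff).car = perp F X.car := rfl

instance : InCRL (Cl F) where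
  imp := res
  ff := clff
  residuated X Y Z := by
    rw [cl_mul_comm, mul_le_res]
  involutive X := by
    apply Cl.ext
    rw [res_ff, res_ff, X.closed]

theorem neg_car (X : Cl F) : (neg X).car = perp F X.car := rfl

theorem pow_le {X T : Cl F} (k : ℕ) :
    X ^ k ≤ T ↔ ∀ u : Fin k → W, (∀ i, u i ∈ X.car) → ∏ i, u i ∈ T.car := by
  induction k generalizing T with
  | zero =>
    rw [pow_zero, one_le_iff]
    constructor
    · intro h u _
      simpa using h
    · intro h
      simpa using h (fun i => i.elim0) (fun i => i.elim0)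
  | succ k ih =>
    rw [pow_succ, mul_le_res, ih]
    constructor
    · intro h u hu
      rw [Fin.prod_univ_castSucc]
      exact h (fun i => u i.castSucc) (fun i => hu _) _ (hu _)
    · intro h u hu x hx
      have := h (Fin.snoc u x) (by
        intro i
        refine Fin.lastCases ?_ (fun j => ?_) i
        · simpa using hx
        · simpa using hu j)
      rw [Fin.prod_univ_castSucc] at this
      simpa using this

/-- the phase space satisfies the condition for `x ^ m ≤ x ^ n` -/
def KMN (m n : ℕ) (F : Set W) : Prop :=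
  ∀ (u : Fin m → W) (w : W), (∀ N : Fin n → Fin m, (∏ k, u (N k)) * w ∈ F) → (∏ i, u i) * w ∈ F

theorem knotted_of {m n : ℕ} (h : KMN m n F) : Knotted m n (Cl F) := by
  intro X
  rw [pow_le]
  intro u hu
  rw [← (X ^ n).closed]
  intro w hw
  refine h u w fun N => ?_
  have h1 : (∏ k, u (N k)) ∈ (X ^ n).car := (pow_le (X := X) n).1 le_rfl _ fun i => hu _
  rw [mul_comm]
  exact hw _ h1

end

end Pool.Agent.K9h30.KN
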