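import Mathlib
import Pool.Agent.K9h30.KN.Phase

/-!
# Commutative `ℓ`-bimonoids embed into phase spaces
-/

set_option autoImplicit false

namespace Pool.Agent.K9h30.KN

open Multiplicative (ofAdd toAdd)

section

variable {A : Type} [CBiMon A]

theorem cb_mul_le {x y z : A} (h : y ≤ z) : x * y ≤ x * z := by
  have h1 := CBiMon.mul_sup' x y z
  rw [sup_eq_right.2 h] at h1
  rw [h1]
  exact le_sup_left

theorem cb_add_le {x y z : A} (h : y ≤ z) : x + y ≤ x + z := by
  have h1 := CBiMon.add_inf' x y z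
  rw [inf_eq_left.2 h] at h1
  rw [h1]
  exact inf_le_right

/-- the monoid of the pairs -/
abbrev WW (A : Type) [CBiMon A] : Type := A × Multiplicative A

/-- the pairs `(a, b)` with `a ≤ b` -/
def FF (A : Type) [CBiMon A] : Set (WW A) := {p | p.1 ≤ toAdd p.2}

/-- the embedding -/
def emb (a : A) : Cl (FF A) := ofPerp (FF A) {((1 : A), ofAdd a)}

theorem mem_emb {a : A} {p : WW A} : p ∈ (emb a).car ↔ p.1 ≤ toAdd p.2 + a := by
  show (∀ x ∈ ({((1 : A), ofAdd a)} : Set (WW A)), p * x ∈ FF A) ↔ _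
  simp [FF]

theorem mem_perp_emb {a : A} {p : WW A} : p ∈ perp (FF A) (emb a).car ↔ a * p.1 ≤ toAdd p.2 := by
  constructor
  · intro h
    have h1 : (a, (1 : Multiplicative A)) ∈ (emb a).car := by
      rw [mem_emb]
      simp
    have h2 := h _ h1
    simp only [FF, Set.mem_setOf_eq, Prod.fst_mul, Prod.snd_mul, mul_one] at h2
    rwa [mul_comm]
  · intro h x hx
    rw [mem_emb] at hx
    show (p * x).1 ≤ toAdd (p * x).2
    simp only [Prod.fst_mul, Prod.snd_mul, toAdd_mul]
    calc p.1 * x.1 ≤ p.1 * (toAdd x.2 + a) := cb_mul_le hx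
      _ = p.1 * (a + toAdd x.2) := by rw [add_comm a]
      _ ≤ p.1 * a + toAdd x.2 := CBiMon.hemi _ _ _
      _ = toAdd x.2 + a * p.1 := by rw [mul_comm p.1, add_comm]
      _ ≤ toAdd x.2 + toAdd p.2 := cb_add_le h
      _ = toAdd p.2 + toAdd x.2 := add_comm _ _

theorem emb_le {a : A} {T : Cl (FF A)} : emb a ≤ T ↔ (a, (1 : Multiplicative A)) ∈ T.car := by
  constructor
  · intro h
    apply h
    rw [mem_emb]
    simp
  · intro h
    rw [le_iff, ← T.closed, ← (emb a).closed]
    apply perp_anti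
    intro p hp
    rw [mem_perp_emb]
    have := hp _ h
    simp only [FF, Set.mem_setOf_eq, Prod.fst_mul, Prod.snd_mul, mul_one] at this
    rwa [mul_comm]

theorem emb_le_emb {a b : A} : emb a ≤ emb b ↔ a ≤ b := by
  rw [emb_le, mem_emb]
  simp

theorem emb_inj : Function.Injective (emb (A := A)) := fun _ _ h =>
  le_antisymm (emb_le_emb.1 h.le) (emb_le_emb.1 h.ge)

theorem emb_inf (a b : A) : emb (a ⊓ b) = emb a ⊓ emb b := by
  apply Cl.ext
  rw [inf_car]
  ext p
  rw [Set.mem_inter_iff, mem_emb, mem_emb, mem_emb, CBiMon.add_inf', le_inf_iff]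

theorem emb_sup (a b : A) : emb (a ⊔ b) = emb a ⊔ emb b := by
  apply le_antisymm
  · rw [le_iff, ← (emb a ⊔ emb b).closed, ← (emb (a ⊔ b)).closed]
    apply perp_anti
    intro p hp
    rw [mem_perp_emb, mul_comm, CBiMon.mul_sup', sup_le_iff, mul_comm, mul_comm p.1]
    exact ⟨mem_perp_emb.1 (perp_anti (F := FF A) (show (emb a).car ⊆ (emb a ⊔ emb b).car from
      le_iff.1 le_sup_left) hp), mem_perp_emb.1 (perp_anti (F := FF A)
        (show (emb b).car ⊆ (emb a ⊔ emb b).car from le_iff.1 le_sup_right) hp)⟩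
  · exact sup_le (emb_le_emb.2 le_sup_left) (emb_le_emb.2 le_sup_right)

theorem emb_mul (a b : A) : emb (a * b) = emb a * emb b := by
  apply eq_of_forall_ge_iff
  intro T
  rw [mul_le_res, emb_le, emb_le]
  show (a * b, (1 : Multiplicative A)) ∈ T.car ↔ ∀ x ∈ (emb b).car, (a, 1) * x ∈ T.car
  constructor
  · intro h x hx
    have h1 : emb b ≤ res (emb a) T := by
      rw [emb_le]
      intro y hy
      have h2 : emb (a * b) ≤ T := emb_le.2 h
      rw [← T.closed]
      intro v hv
      have h3 : v ∈ perp (FF A) (emb (a * b)).car := perp_anti (le_iff.1 h2) hv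
      rw [mem_perp_emb] at h3
      rw [mem_emb] at hy
      show ((b, (1 : Multiplicative A)) * y * v).1 ≤ toAdd ((b, (1 : Multiplicative A)) * y * v).2
      simp only [Prod.fst_mul, Prod.snd_mul, one_mul, toAdd_mul]
      calc b * y.1 * v.1 = (b * v.1) * y.1 := by ac_rfl
        _ ≤ (b * v.1) * (toAdd y.2 + a) := cb_mul_le hy
        _ = (b * v.1) * (a + toAdd y.2) := by rw [add_comm a]
        _ ≤ (b * v.1) * a + toAdd y.2 := CBiMon.hemi _ _ _
        _ = toAdd y.2 + a * b * v.1 := by rw [add_comm, show b * v.1 * a = a * b * v.1 by ac_rfl]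
        _ ≤ toAdd y.2 + toAdd v.2 := cb_add_le h3
    have h2 := h1 hx
    have h3 : (a, (1 : Multiplicative A)) ∈ (emb a).car := by
      rw [mem_emb]
      simp
    have h4 := h2 _ h3
    rwa [mul_comm] at h4
  · intro h
    have h3 : (b, (1 : Multiplicative A)) ∈ (emb b).car := by
      rw [mem_emb]
      simp
    have := h _ h3
    simpa using this

theorem emb_one : emb (1 : A) = 1 := by
  apply eq_of_forall_ge_iff
  intro T
  rw [emb_le, one_le_iff]
  rfl

theorem emb_zero : emb (0 : A) = InCRL.ff := by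
  apply Cl.ext
  ext p
  rw [mem_emb, add_zero]
  rfl

theorem mem_neg_emb {a : A} {p : WW A} : p ∈ (neg (emb a)).car ↔ a * p.1 ≤ toAdd p.2 := by
  rw [neg_car, mem_perp_emb]

theorem emb_add (a b : A) : emb (a + b) = plus (emb a) (emb b) := by
  apply Cl.ext
  unfold plus
  rw [neg_car]
  apply Set.Subset.antisymm
  · intro p hp
    rw [mem_emb] at hp
    have h1 : neg (emb a) * neg (emb b) ≤ ofPerp (FF A) {p} := by
      rw [mul_le]
      intro x hx y hy
      rw [mem_neg_emb] at hx hy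
      rintro q hq
      rw [Set.mem_singleton_iff] at hq
      subst hq
      show (x * y * q).1 ≤ toAdd (x * y * q).2
      simp only [Prod.fst_mul, Prod.snd_mul, toAdd_mul]
      calc x.1 * y.1 * q.1 ≤ x.1 * y.1 * (toAdd q.2 + (a + b)) := cb_mul_le hp
        _ = y.1 * (x.1 * (a + (toAdd q.2 + b))) := by
            rw [show toAdd q.2 + (a + b) = a + (toAdd q.2 + b) by ac_rfl]
            ac_rfl
        _ ≤ y.1 * (x.1 * a + (toAdd q.2 + b)) := cb_mul_le (CBiMon.hemi _ _ _)
        _ = y.1 * (b + (x.1 * a + toAdd q.2)) := by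
            rw [show x.1 * a + (toAdd q.2 + b) = b + (x.1 * a + toAdd q.2) by ac_rfl]
        _ ≤ y.1 * b + (x.1 * a + toAdd q.2) := CBiMon.hemi _ _ _
        _ = (x.1 * a + toAdd q.2) + y.1 * b := add_comm _ _
        _ ≤ (x.1 * a + toAdd q.2) + toAdd y.2 := cb_add_le (by rwa [mul_comm])
        _ = (toAdd q.2 + toAdd y.2) + x.1 * a := by ac_rfl
        _ ≤ (toAdd q.2 + toAdd y.2) + toAdd x.2 := cb_add_le (by rwa [mul_comm])
        _ = toAdd x.2 + toAdd y.2 + toAdd q.2 := by ac_rfl
    intro z hz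
    have h2 := h1 hz p rfl
    rwa [mul_comm] at h2
  · intro p hp
    rw [mem_emb]
    have h1 : ((1 : A), ofAdd a) ∈ (neg (emb a)).car := by
      rw [mem_neg_emb]
      simp
    have h2 : ((1 : A), ofAdd b) ∈ (neg (emb b)).car := by
      rw [mem_neg_emb]
      simp
    have h3 := mul_le.1 (le_refl (neg (emb a) * neg (emb b))) _ h1 _ h2
    have h4 := hp _ h3
    have h5 : (p * (((1 : A), ofAdd a) * ((1 : A), ofAdd b))).1 ≤
        toAdd (p * (((1 : A), ofAdd a) * ((1 : A), ofAdd b))).2 := h4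
    simpa using h5

theorem emb_hom : IsHom (CBiMon.sig A) (reduct (Cl (FF A))) emb where
  meet := emb_inf
  join := emb_sup
  mul := emb_mul
  add := emb_add
  one := emb_one
  zero := emb_zero

theorem kmn_of_q {m n : ℕ} (h : QMN m n A) : KMN m n (FF A) := by
  intro u w hN
  have h1 := h (fun i => (u i).1) (fun i => toAdd (u i).2) (toAdd w.2) w.1 (fun N => by
    have := hN N
    change ((∏ k, u (N k)) * w).1 ≤ toAdd ((∏ k, u (N k)) * w).2 at this
    rwa [Prod.fst_mul, Prod.snd_mul, toAdd_mul, Prod.fst_prod, Prod.snd_prod, toAdd_prod] at this)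
  show ((∏ i, u i) * w).1 ≤ toAdd ((∏ i, u i) * w).2
  rwa [Prod.fst_mul, Prod.snd_mul, toAdd_mul, Prod.fst_prod, Prod.snd_prod, toAdd_prod]

/-- The representation theorem. -/
theorem subreduct_of_q {m n : ℕ} (h : QMN m n A) : IsSubreduct m n A (CBiMon.sig A) :=
  ⟨Cl (FF A), inferInstance, knotted_of (kmn_of_q h), emb, emb_inj, emb_hom⟩

end

end Pool.Agent.K9h30.KN
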