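import Mathlib
import Pool.Agent.K9h30.KN.Defs

/-!
# A quasi-inequality which holds in the subreducts of a knotted variety
-/

set_option autoImplicit false

namespace Pool.Agent.K9h30.KN

section

variable {C : Type} [InCRL C]

theorem c_mul_le {x y : C} (z : C) (h : x ≤ y) : z * x ≤ z * y :=
  (InCRL.residuated z x (z * y)).2 (h.trans ((InCRL.residuated z y (z * y)).1 le_rfl))

theorem c_mul_le' {x y : C} (z : C) (h : x ≤ y) : x * z ≤ y * z := by
  rw [mul_comm x, mul_comm y]
  exact c_mul_le z h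

theorem c_mul_mono {x y z t : C} (h : x ≤ y) (h' : z ≤ t) : x * z ≤ y * t :=
  (c_mul_le x h').trans (c_mul_le' t h)

theorem c_mul_sup_le {x y z t : C} (h1 : x * y ≤ t) (h2 : x * z ≤ t) : x * (y ⊔ z) ≤ t :=
  (InCRL.residuated _ _ _).2 (sup_le ((InCRL.residuated _ _ _).1 h1) ((InCRL.residuated _ _ _).1 h2))

theorem c_pow_mono {x y : C} (h : x ≤ y) (k : ℕ) : x ^ k ≤ y ^ k := by
  induction k with
  | zero => simp
  | succ k ih =>
    rw [pow_succ, pow_succ]
    exact c_mul_mono ih h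

theorem le_neg_iff {x y : C} : x ≤ neg y ↔ x * y ≤ InCRL.ff := by
  unfold neg
  rw [← InCRL.residuated, mul_comm]

theorem neg_neg' (x : C) : neg (neg x) = x := InCRL.involutive x

theorem neg_one' : neg (1 : C) = InCRL.ff := by
  apply eq_of_forall_le_iff
  intro z
  rw [le_neg_iff, mul_one]

theorem sup_pow_le (u v z : C) (n : ℕ) : ∀ w : C, (∀ j ≤ n, u ^ (n - j) * v ^ j * w ≤ z) →
    (u ⊔ v) ^ n * w ≤ z := by
  induction n with
  | zero =>
    intro w h
    simpa using h 0 le_rfl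
  | succ n ih =>
    intro w h
    have e : (u ⊔ v) ^ (n + 1) * w = (u ⊔ v) ^ n * w * (u ⊔ v) := by
      rw [pow_succ]
      ac_rfl
    rw [e]
    apply c_mul_sup_le
    · rw [mul_assoc]
      apply ih
      intro j hj
      have := h j (by omega)
      rw [show n + 1 - j = (n - j) + 1 by omega, pow_succ] at this
      rwa [show u ^ (n - j) * v ^ j * (w * u) = u ^ (n - j) * u * v ^ j * w by ac_rfl]
    · rw [mul_assoc]
      apply ih
      intro j hj
      have := h (j + 1) (by omega)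
      rw [show n + 1 - (j + 1) = n - j by omega, pow_succ] at this
      rwa [show u ^ (n - j) * v ^ j * (w * v) = u ^ (n - j) * (v ^ j * v) * w by ac_rfl]

end

section

variable {A : Type} (S : Sig A)

/-- the powers -/
def Sig.pw (a : A) : ℕ → A
  | 0 => S.one
  | k + 1 => S.mul (Sig.pw a k) a

/-- the multiples -/
def Sig.ns (b : A) : ℕ → A
  | 0 => S.zero
  | k + 1 => S.add (Sig.ns b k) b

variable {S} {C : Type} [InCRL C] {f : A → C}

theorem hom_pw (hf : IsHom S (reduct C) f) (a : A) (k : ℕ) : f (S.pw a k) = f a ^ k := by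
  induction k with
  | zero =>
    rw [pow_zero]
    exact hf.one
  | succ k ih =>
    rw [pow_succ, ← ih]
    exact hf.mul _ _

theorem hom_ns (hf : IsHom S (reduct C) f) (b : A) (k : ℕ) :
    f (S.ns b k) = neg (neg (f b) ^ k) := by
  induction k with
  | zero =>
    rw [pow_zero, neg_one']
    exact hf.zero
  | succ k ih =>
    have h := hf.add (S.ns b k) b
    rw [ih] at h
    rw [pow_succ]
    refine h.trans ?_
    show plus _ _ = _
    unfold plus
    rw [neg_neg']

theorem hom_le (hf : IsHom S (reduct C) f) {x y : A} (h : S.meet x y = x) : f x ≤ f y := by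
  have := hf.meet x y
  rw [h] at this
  rw [this]
  exact inf_le_right

/-- The quasi-inequality for two pairs, of which the first is used `m - 1` times. -/
theorem not_subreduct {m n : ℕ} (hm : 1 ≤ m) {B : Type} (T : Sig B) (a₁ b₁ a₂ b₂ c d : B)
    (hp : ∀ j ≤ n, T.meet (T.mul (T.mul (T.pw a₁ (n - j)) (T.pw a₂ j)) d)
      (T.add (T.add (T.ns b₁ (n - j)) (T.ns b₂ j)) c) = T.mul (T.mul (T.pw a₁ (n - j)) (T.pw a₂ j)) d)
    (hc : T.meet (T.mul (T.mul (T.pw a₁ (m - 1)) a₂) d) (T.add (T.add (T.ns b₁ (m - 1)) b₂) c) ≠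
      T.mul (T.mul (T.pw a₁ (m - 1)) a₂) d) : ¬ IsSubreduct m n B T := by
  rintro ⟨C, _, hC, f, hinj, hf⟩
  have hmul : ∀ x y, f (T.mul x y) = f x * f y := hf.mul
  have hadd : ∀ x y, f (T.add x y) = neg (neg (f x) * neg (f y)) := hf.add
  set u := f a₁ * neg (f b₁) with hu
  set v := f a₂ * neg (f b₂) with hv
  set w := f d * neg (f c) with hw
  have h1 : (u ⊔ v) ^ n * w ≤ InCRL.ff := by
    apply sup_pow_le
    intro j hj
    have h2 := hom_le hf (hp j hj)
    rw [hmul, hmul, hadd, hadd, hom_pw hf, hom_pw hf, hom_ns hf, hom_ns hf, neg_neg', neg_neg',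
      neg_neg', le_neg_iff] at h2
    rw [hu, hv, hw, mul_pow, mul_pow]
    refine le_of_eq_of_le ?_ h2
    ac_rfl
  have h3 : (u ⊔ v) ^ m * w ≤ InCRL.ff := (c_mul_le' w (hC (u ⊔ v))).trans h1
  have h4 : u ^ (m - 1) * v * w ≤ InCRL.ff := by
    refine le_trans (c_mul_le' w ?_) h3
    have : (u ⊔ v) ^ m = (u ⊔ v) ^ (m - 1) * (u ⊔ v) := by
      rw [← pow_succ, Nat.sub_add_cancel hm]
    rw [this]
    exact c_mul_mono (c_pow_mono le_sup_left _) le_sup_right
  have h5 : f (T.mul (T.mul (T.pw a₁ (m - 1)) a₂) d) ≤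
      f (T.add (T.add (T.ns b₁ (m - 1)) b₂) c) := by
    rw [hmul, hmul, hadd, hadd, hom_pw hf, hom_ns hf, neg_neg', neg_neg', le_neg_iff]
    refine le_of_eq_of_le ?_ h4
    rw [hu, hv, hw, mul_pow]
    ac_rfl
  apply hc
  apply hinj
  have h6 : f (T.meet (T.mul (T.mul (T.pw a₁ (m - 1)) a₂) d)
      (T.add (T.add (T.ns b₁ (m - 1)) b₂) c)) = f (T.mul (T.mul (T.pw a₁ (m - 1)) a₂) d) ⊓
      f (T.add (T.add (T.ns b₁ (m - 1)) b₂) c) := hf.meet _ _
  rw [h6, inf_eq_left]
  exact h5

/-- `x ^ (n + 1) ≤ x ^ n` implies `x ^ m ≤ x ^ n` for all `m ≥ n`. -/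
theorem knotted_down {m n : ℕ} (h : n ≤ m) (hC : Knotted (n + 1) n C) : Knotted m n C := by
  intro x
  induction m, h using Nat.le_induction with
  | base => exact le_rfl
  | succ m hm ih =>
    calc x ^ (m + 1) = x ^ (m - n) * x ^ (n + 1) := by
          rw [← pow_add]
          congr 1
          omega
      _ ≤ x ^ (m - n) * x ^ n := c_mul_le _ (hC x)
      _ = x ^ m := by
          rw [← pow_add]
          congr 1
          omega
      _ ≤ x ^ n := ih

/-- `x ^ m ≤ x ^ (m + 1)` implies `x ^ m ≤ x ^ n` for all `n ≥ m`. -/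
theorem knotted_up {m n : ℕ} (h : m ≤ n) (hC : Knotted m (m + 1) C) : Knotted m n C := by
  intro x
  induction n, h using Nat.le_induction with
  | base => exact le_rfl
  | succ n hn ih =>
    calc x ^ m ≤ x ^ n := ih
      _ = x ^ (n - m) * x ^ m := by
          rw [← pow_add]
          congr 1
          omega
      _ ≤ x ^ (n - m) * x ^ (m + 1) := c_mul_le _ (hC x)
      _ = x ^ (n + 1) := by
          rw [← pow_add]
          congr 1
          omega

theorem subreduct_down {m n : ℕ} (h : n ≤ m) {A : Type} {S : Sig A} (hA : IsSubreduct (n + 1) n A S) :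
    IsSubreduct m n A S := by
  obtain ⟨C, i, hC, h'⟩ := hA
  exact ⟨C, i, knotted_down h hC, h'⟩

theorem subreduct_up {m n : ℕ} (h : m ≤ n) {A : Type} {S : Sig A} (hA : IsSubreduct m (m + 1) A S) :
    IsSubreduct m n A S := by
  obtain ⟨C, i, hC, h'⟩ := hA
  exact ⟨C, i, knotted_up h hC, h'⟩

end

end Pool.Agent.K9h30.KN
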