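import Mathlib
import Pool.Agent.K9h30.KN.Embed
import Pool.Agent.K9h30.KN.Viol
import Pool.Agent.K9h30.KN.F1T

/-!
# The case `n = 1`: an algebra with 21 elements
-/

set_option autoImplicit false

namespace Pool.Agent.K9h30.KN.F1

/-- the algebra -/
def T : Type := Fin 21

instance : Max T := ⟨look tJ⟩
instance : Min T := ⟨look tM⟩
instance : Mul T := ⟨look tP⟩
instance : Add T := ⟨look tA⟩
instance : One T := ⟨(17 : Fin 21)⟩
instance : Zero T := ⟨(4 : Fin 21)⟩

instance : Lattice T := Lattice.mk' j_comm j_assoc m_comm m_assoc jm mj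

theorem T_le {x y : T} : x ≤ y ↔ look tM x y = x := inf_eq_left.symm

instance : CommMonoid T where
  mul_assoc := p_assoc
  one_mul := one_p
  mul_one x := (p_comm x (17 : Fin 21)).trans (one_p x)
  mul_comm := p_comm

instance : AddCommMonoid T where
  add_assoc := a_assoc
  zero_add := zero_a
  add_zero x := (a_comm x (4 : Fin 21)).trans (zero_a x)
  add_comm := a_comm
  nsmul := nsmulRec

instance : CBiMon T where
  mul_sup' := p_sup
  add_inf' := a_inf
  hemi x y z := T_le.2 (hemi x y z)

/-- the residual -/
def rs (d y : T) : T := look tR d y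

theorem T_q : QMN 2 1 T := by
  intro a b c d hN
  have h : ∀ i, a i * d ≤ b i + c := by
    intro i
    have := hN fun _ => i
    simpa using this
  have hr : ∀ i, a i ≤ rs d (b i + c) := fun i => T_le.2 (r_spec _ _ _ (T_le.1 (h i)))
  have key : ∀ x y : T, rs d (x + c) * rs d (y + c) * d ≤ x + y + c := by
    intro x y
    rcases le_total (α := Fin 21) x y with h1 | h1
    · exact T_le.2 (q_spec c d x y h1)
    · have h3 : rs d (y + c) * rs d (x + c) * d ≤ y + x + c := T_le.2 (q_spec c d y x h1)
      rwa [mul_comm (rs d (x + c)), add_comm x y]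
  rw [Fin.prod_univ_two, Fin.sum_univ_two]
  refine le_trans ?_ (key (b 0) (b 1))
  rw [mul_comm _ d, mul_comm _ d]
  exact cb_mul_le ((cb_mul_le (hr 1)).trans (by
    rw [mul_comm (a 0), mul_comm (rs d (b 0 + c))]
    exact cb_mul_le (hr 0)))

theorem subreduct {m : ℕ} (hm : 1 ≤ m) : IsSubreduct m 1 T (CBiMon.sig T) :=
  subreduct_down hm (subreduct_of_q T_q)

/-- the retraction -/
def r (x : Fin 21) : Fin 21 := if x = 13 then 11 else x

theorem r_r : ∀ x : Fin 21, r (r x) = r x := by decide +kernel

theorem r_M : ∀ x y : Fin 21, r (look tM x y) = r (look tM (r x) (r y)) := by decide +kernel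
theorem r_J : ∀ x y : Fin 21, r (look tJ x y) = r (look tJ (r x) (r y)) := by decide +kernel
theorem r_P : ∀ x y : Fin 21, r (look tP x y) = r (look tP (r x) (r y)) := by decide +kernel
theorem r_A : ∀ x y : Fin 21, r (look tA x y) = r (look tA (r x) (r y)) := by decide +kernel

/-- the quotient -/
def B : Type := {x : Fin 21 // r x = x}

/-- the operations of the quotient -/
def bop (t : ℕ) (x y : B) : B := ⟨r (look t x.1 y.1), r_r _⟩

/-- the quotient as an algebra -/
def sig : Sig B where
  meet := bop tM
  join := bop tJ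
  mul := bop tP
  add := bop tA
  one := ⟨17, by decide⟩
  zero := ⟨4, by decide⟩

/-- the homomorphism -/
def pi (x : T) : B := ⟨r x, r_r x⟩

theorem pi_hom : IsHom (CBiMon.sig T) sig pi where
  meet x y := Subtype.ext (r_M x y)
  join x y := Subtype.ext (r_J x y)
  mul x y := Subtype.ext (r_P x y)
  add x y := Subtype.ext (r_A x y)
  one := Subtype.ext (by decide +kernel)
  zero := Subtype.ext (by decide +kernel)

theorem pi_surj : Function.Surjective pi := fun y => ⟨y.1, Subtype.ext y.2⟩

theorem pw_one (k : ℕ) : sig.pw sig.one k = sig.one := by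
  induction k with
  | zero => rfl
  | succ k ih =>
    show sig.mul (sig.pw sig.one k) sig.one = _
    rw [ih]
    apply Subtype.ext
    decide +kernel

theorem ns_b (k : ℕ) : sig.ns ⟨1, by decide⟩ (k + 1) = ⟨1, by decide⟩ := by
  induction k with
  | zero =>
    apply Subtype.ext
    decide +kernel
  | succ k ih =>
    show sig.add (sig.ns ⟨1, by decide⟩ (k + 1)) ⟨1, by decide⟩ = _
    rw [ih]
    apply Subtype.ext
    decide +kernel

theorem not_sub {m : ℕ} (hm : 1 < m) : ¬ IsSubreduct m 1 B sig := by
  refine not_subreduct (by omega) sig sig.one ⟨1, by decide⟩ ⟨18, by decide⟩ ⟨3, by decide⟩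
    ⟨12, by decide⟩ ⟨7, by decide⟩ ?_ ?_
  · intro j hj
    interval_cases j
    · apply Subtype.ext
      decide +kernel
    · apply Subtype.ext
      decide +kernel
  · rw [pw_one, show m - 1 = (m - 2) + 1 by omega, ns_b]
    intro h
    have h1 := congrArg Subtype.val h
    revert h1
    decide +kernel

end Pool.Agent.K9h30.KN.F1
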