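import Mathlib
import Pool.Agent.K9h30.KN.Embed
import Pool.Agent.K9h30.KN.Viol

/-!
# The case `m > n ≥ 2`
-/

set_option autoImplicit false

namespace Pool.Agent.K9h30.KN

/-- the chain `1 > t > … > t ^ n > s > t s > … > t ^ n s > 0` -/
@[ext]
structure E2 (n : ℕ) where
  lev : ℕ
  ex : ℕ
  hl : lev ≤ 2
  he : ex ≤ n
  h2 : lev = 2 → ex = 0

namespace E2

variable {n : ℕ}

instance : LinearOrder (E2 n) :=
  LinearOrder.lift' (fun x => OrderDual.toDual (toLex (x.lev, x.ex))) (by
    intro x y h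
    have h1 : (x.lev, x.ex) = (y.lev, y.ex) := by simpa using h
    exact E2.ext (Prod.mk.inj h1).1 (Prod.mk.inj h1).2)

theorem le_iff {x y : E2 n} : x ≤ y ↔ y.lev < x.lev ∨ (y.lev = x.lev ∧ y.ex ≤ x.ex) := by
  show OrderDual.toDual (toLex (x.lev, x.ex)) ≤ OrderDual.toDual (toLex (y.lev, y.ex)) ↔ _
  rw [OrderDual.toDual_le_toDual, Prod.Lex.toLex_le_toLex]

/-- normal forms -/
def mk' (j i : ℕ) : E2 n :=
  if h : 2 ≤ j then ⟨2, 0, le_rfl, Nat.zero_le _, fun _ => rfl⟩
  else ⟨j, min i n, by omega, by omega, fun h' => absurd h'.ge h⟩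

theorem mk_lev (j i : ℕ) : (mk' j i : E2 n).lev = min j 2 := by
  unfold mk'
  split_ifs <;> simp <;> omega

theorem mk_ex (j i : ℕ) : (mk' j i : E2 n).ex = if 2 ≤ j then 0 else min i n := by
  unfold mk'
  split_ifs <;> simp

theorem mk_self (x : E2 n) : mk' x.lev x.ex = x := by
  have h1 := x.hl
  have h2 := x.he
  have h3 := x.h2
  apply E2.ext
  · rw [mk_lev]
    omega
  · rw [mk_ex]
    split_ifs with h
    · exact (h3 (by omega)).symm
    · omega

instance : Mul (E2 n) := ⟨fun x y => mk' (x.lev + y.lev) (x.ex + y.ex)⟩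
instance : One (E2 n) := ⟨mk' 0 0⟩

theorem mul_def (x y : E2 n) : x * y = mk' (x.lev + y.lev) (x.ex + y.ex) := rfl

theorem mk_mul (j i j' i' : ℕ) : (mk' j i * mk' j' i' : E2 n) = mk' (j + j') (i + i') := by
  rw [mul_def]
  apply E2.ext
  · rw [mk_lev, mk_lev, mk_lev, mk_lev]
    omega
  · rw [mk_ex, mk_ex, mk_ex, mk_ex, mk_lev, mk_lev]
    split_ifs <;> omega

instance : CommMonoid (E2 n) where
  mul_assoc x y z := by
    rw [← mk_self x, ← mk_self y, ← mk_self z, mk_mul, mk_mul, mk_mul, mk_mul, add_assoc, add_assoc]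
  one_mul x := by
    rw [← mk_self x]
    show mk' 0 0 * _ = _
    rw [mk_mul, zero_add, zero_add]
  mul_one x := by
    rw [← mk_self x]
    show _ * mk' 0 0 = _
    rw [mk_mul, add_zero, add_zero]
  mul_comm x y := by
    rw [mul_def, mul_def, add_comm x.lev, add_comm x.ex]

theorem one_def : (1 : E2 n) = mk' 0 0 := rfl

theorem mk_le {j i j' i' : ℕ} : (mk' j i : E2 n) ≤ mk' j' i' ↔
    2 ≤ j ∨ j' < j ∨ (j = j' ∧ min i' n ≤ min i n) := by
  rw [le_iff, mk_lev, mk_lev, mk_ex, mk_ex]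
  constructor
  · intro h
    split_ifs at h <;> omega
  · intro h
    split_ifs <;> omega

theorem mul_mono' (x y z : E2 n) (h : y ≤ z) : x * y ≤ x * z := by
  rw [mul_def, mul_def, mk_le]
  rw [le_iff] at h
  have h1 := y.hl
  have h2 := y.h2
  omega

theorem prod_mk {ι : Type} (s : Finset ι) (f g : ι → ℕ) :
    ∏ i ∈ s, (mk' (f i) (g i) : E2 n) = mk' (∑ i ∈ s, f i) (∑ i ∈ s, g i) := by
  classical
  induction s using Finset.induction_on with
  | empty => simp [one_def]
  | insert a s ha ih => rw [Finset.prod_insert ha, ih, mk_mul, Finset.sum_insert ha,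
      Finset.sum_insert ha]

theorem prod_eq {ι : Type} (s : Finset ι) (a : ι → E2 n) :
    ∏ i ∈ s, a i = mk' (∑ i ∈ s, (a i).lev) (∑ i ∈ s, (a i).ex) := by
  rw [← prod_mk]
  exact Finset.prod_congr rfl fun i _ => (mk_self _).symm

end E2

/-- a linearly ordered commutative monoid as an `ℓ`-bimonoid with `x + y = x * y` -/
@[reducible]
def CBiMon.ofLin (M : Type) [LinearOrder M] [CommMonoid M]
    (mono : ∀ x y z : M, y ≤ z → x * y ≤ x * z) : CBiMon M where
  add x y := x * y
  zero := 1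
  add_assoc := mul_assoc
  zero_add := one_mul
  add_zero := mul_one
  add_comm := mul_comm
  nsmul := fun k x => x ^ k
  nsmul_zero := fun x => pow_zero x
  nsmul_succ := fun k x => pow_succ x k
  mul_sup' x y z := by
    rcases le_total y z with h | h
    · rw [sup_eq_right.2 h, sup_eq_right.2 (mono x y z h)]
    · rw [sup_eq_left.2 h, sup_eq_left.2 (mono x z y h)]
  add_inf' x y z := by
    show x * (y ⊓ z) = x * y ⊓ x * z
    rcases le_total y z with h | h
    · rw [inf_eq_left.2 h, inf_eq_left.2 (mono x y z h)]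
    · rw [inf_eq_right.2 h, inf_eq_right.2 (mono x z y h)]
  hemi x y z := by
    show x * (y * z) ≤ x * y * z
    rw [mul_assoc]

instance (n : ℕ) : CBiMon (E2 n) := CBiMon.ofLin (E2 n) E2.mul_mono'

namespace E2

variable {n : ℕ}

theorem sum_eq {ι : Type} (s : Finset ι) (a : ι → E2 n) :
    ∑ i ∈ s, a i = ∏ i ∈ s, a i := by
  classical
  induction s using Finset.induction_on with
  | empty => rfl
  | insert a s ha ih =>
    rw [Finset.prod_insert ha, Finset.sum_insert ha, ih]
    rfl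

theorem q (hn : 2 ≤ n) : QMN (n + 1) n (E2 n) := by
  intro a b c d hN
  have key : ∀ (k : ℕ) (N : Fin k → Fin (n + 1)),
      ((∏ i, a (N i)) * d ≤ (∑ i, b (N i)) + c ↔
        (mk' (∑ i, (a (N i)).lev + d.lev) (∑ i, (a (N i)).ex + d.ex) : E2 n) ≤
          mk' (∑ i, (b (N i)).lev + c.lev) (∑ i, (b (N i)).ex + c.ex)) := by
    intro k N
    rw [sum_eq, prod_eq, prod_eq]
    show mk' _ _ * d ≤ mk' _ _ * c ↔ _
    conv_lhs => rw [← mk_self d, ← mk_self c]
    rw [mk_mul, mk_mul]
  have hN' : ∀ N : Fin n → Fin (n + 1), _ := fun N => (key n N).1 (hN N)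
  rw [key (n + 1) fun i => i]
  by_contra hcon
  rw [mk_le] at hcon
  push Not at hcon
  obtain ⟨h1, h2, h3⟩ := hcon
  -- the indices with `a i` of level `0`
  have hA : ∀ i, (a i).lev = 0 → (b i).lev = 0 ∧ c.lev ≤ d.lev ∧
      (c.lev = d.lev → min (n * (b i).ex + c.ex) n ≤ min (n * (a i).ex + d.ex) n) := by
    intro i hi
    have h4 := hN' fun _ => i
    simp only [Finset.sum_const, Finset.card_univ, Fintype.card_fin, smul_eq_mul] at h4
    rw [mk_le, hi] at h4
    have h5 : d.lev < 2 := by omega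
    have h6 : n * (b i).lev + c.lev ≤ d.lev := by omega
    have h7 : (b i).lev = 0 := by
      by_contra h8
      have : n * 1 ≤ n * (b i).lev := Nat.mul_le_mul_left n (by omega)
      omega
    refine ⟨h7, by omega, fun h8 => ?_⟩
    rw [h7] at h4
    omega
  have hsA : ∀ (f : Fin (n + 1) → ℕ) (i : Fin (n + 1)),
      ∑ k, f (i.succAbove k) = ∑ k, f k - f i := by
    intro f i
    rw [Fin.sum_univ_succAbove f i]
    omega
  have hj : ∑ i, (b i).lev + c.lev ≤ ∑ i, (a i).lev + d.lev := by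
    obtain ⟨i, hi⟩ : ∃ i, (a i).lev = 0 := by
      by_contra hcon
      push Not at hcon
      have h4 : ∑ _i : Fin (n + 1), 1 ≤ ∑ i : Fin (n + 1), (a i).lev :=
        Finset.sum_le_sum fun i _ => by
          have := hcon i
          omega
      simp only [Finset.sum_const, Finset.card_univ, Fintype.card_fin, smul_eq_mul, mul_one] at h4
      omega
    obtain ⟨h4, -, -⟩ := hA i hi
    have h5 := hN' i.succAbove
    rw [hsA (fun k => (a k).lev), hsA (fun k => (b k).lev), hi, h4, mk_le] at h5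
    omega
  have h4 := h3 (by omega)
  obtain ⟨i, hi1, hi2⟩ : ∃ i, (a i).lev = 0 ∧ (a i).ex = 0 := by
    by_contra hcon
    push Not at hcon
    have h5 : ∑ _i : Fin (n + 1), 1 ≤ ∑ i : Fin (n + 1), ((a i).lev + (a i).ex) :=
      Finset.sum_le_sum fun i _ => by
        have := hcon i
        omega
    rw [Finset.sum_add_distrib] at h5
    simp only [Finset.sum_const, Finset.card_univ, Fintype.card_fin, smul_eq_mul, mul_one] at h5
    omega
  obtain ⟨h5, h6, h7⟩ := hA i hi1
  rcases Nat.lt_or_ge c.lev d.lev with h8 | h8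
  · have h9 : ∀ i ∈ (Finset.univ : Finset (Fin (n + 1))), (b i).lev = 0 := by
      intro k _
      apply (hA k _).1
      have : (a k).lev ≤ ∑ i, (a i).lev :=
        Finset.single_le_sum (f := fun i => (a i).lev) (fun _ _ => Nat.zero_le _) (Finset.mem_univ k)
      omega
    have h10 : ∑ i, (b i).lev = 0 := Finset.sum_eq_zero h9
    omega
  · have h9 := h7 (by omega)
    have h10 : (b i).ex = 0 := by
      by_contra h11
      have : n * 1 ≤ n * (b i).ex := Nat.mul_le_mul_left n (by omega)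
      rw [hi2] at h9
      omega
    have h11 := hN' i.succAbove
    rw [hsA (fun k => (a k).lev), hsA (fun k => (b k).lev), hsA (fun k => (a k).ex),
      hsA (fun k => (b k).ex), hi1, h5, hi2, h10, mk_le] at h11
    omega

theorem subreduct (hn : 2 ≤ n) {m : ℕ} (hm : n ≤ m) : IsSubreduct m n (E2 n) (CBiMon.sig (E2 n)) :=
  subreduct_down hm (subreduct_of_q (q hn))

end E2

/-- the quotient, where `0` and `t ^ n s` are identified -/
@[ext]
structure B2 (n : ℕ) where
  lev : ℕ
  ex : ℕ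
  hl : lev ≤ 1
  he : ex ≤ n

namespace B2

variable {n : ℕ}

instance : LinearOrder (B2 n) :=
  LinearOrder.lift' (fun x => OrderDual.toDual (toLex (x.lev, x.ex))) (by
    intro x y h
    have h1 : (x.lev, x.ex) = (y.lev, y.ex) := by simpa using h
    exact B2.ext (Prod.mk.inj h1).1 (Prod.mk.inj h1).2)

theorem le_iff {x y : B2 n} : x ≤ y ↔ y.lev < x.lev ∨ (y.lev = x.lev ∧ y.ex ≤ x.ex) := by
  show OrderDual.toDual (toLex (x.lev, x.ex)) ≤ OrderDual.toDual (toLex (y.lev, y.ex)) ↔ _
  rw [OrderDual.toDual_le_toDual, Prod.Lex.toLex_le_toLex]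

/-- normal forms -/
def mk' (j i : ℕ) : B2 n := ⟨min j 1, if 2 ≤ j then n else min i n, by omega, by split_ifs <;> omega⟩

theorem mk_self (x : B2 n) : mk' x.lev x.ex = x := by
  have h1 := x.hl
  have h2 := x.he
  apply B2.ext
  · show min x.lev 1 = _
    omega
  · show (if 2 ≤ x.lev then n else min x.ex n) = _
    split_ifs <;> omega

/-- the product -/
def mul (x y : B2 n) : B2 n := mk' (x.lev + y.lev) (x.ex + y.ex)

theorem mk_mul (j i j' i' : ℕ) : (mul (mk' j i) (mk' j' i') : B2 n) = mk' (j + j') (i + i') := by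
  unfold mul
  apply B2.ext
  · show min (min j 1 + min j' 1) 1 = min (j + j') 1
    omega
  · show (if 2 ≤ min j 1 + min j' 1 then n else
      min ((if 2 ≤ j then n else min i n) + (if 2 ≤ j' then n else min i' n)) n) =
      (if 2 ≤ j + j' then n else min (i + i') n)
    split_ifs <;> omega

theorem mk_le {j i j' i' : ℕ} (hj : 1 ≤ j) (h : (j' = 0) ∨ (j' = 1 ∧ min i' n ≤ min i n) ∨
    2 ≤ j ∨ n ≤ i) : (mk' j i : B2 n) ≤ mk' j' i' := by
  rw [le_iff]
  show min j' 1 < min j 1 ∨ (min j' 1 = min j 1 ∧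
    (if 2 ≤ j' then n else min i' n) ≤ (if 2 ≤ j then n else min i n))
  split_ifs <;> omega

/-- the algebra -/
def sig (n : ℕ) : Sig (B2 n) where
  meet x y := x ⊓ y
  join x y := x ⊔ y
  mul := mul
  add := mul
  one := mk' 0 0
  zero := mk' 0 0

theorem pw_mk (j i k : ℕ) : (sig n).pw (mk' j i) k = mk' (j * k) (i * k) := by
  induction k with
  | zero => rfl
  | succ k ih =>
    show mul ((sig n).pw (mk' j i) k) (mk' j i) = _
    rw [ih, mk_mul]
    rfl

theorem ns_mk (j i k : ℕ) : (sig n).ns (mk' j i) k = mk' (j * k) (i * k) := by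
  induction k with
  | zero => rfl
  | succ k ih =>
    show mul ((sig n).ns (mk' j i) k) (mk' j i) = _
    rw [ih, mk_mul]
    rfl

theorem not_sub (hn : 2 ≤ n) {m : ℕ} (hm : n < m) : ¬ IsSubreduct m n (B2 n) (sig n) := by
  refine not_subreduct (by omega) (sig n) (mk' 0 0) (mk' 0 1) (mk' 0 (n - 1)) (mk' 1 0) (mk' 0 0)
    (mk' 1 0) ?_ ?_
  · intro j hj
    rw [pw_mk, pw_mk, ns_mk, ns_mk]
    show mul (mul _ _) _ ⊓ mul (mul _ _) _ = mul (mul _ _) _
    rw [mk_mul, mk_mul, mk_mul, mk_mul, inf_eq_left]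
    apply mk_le
    · omega
    · rcases Nat.lt_or_ge j 2 with h | h
      · interval_cases j
        · left
          omega
        · right
          left
          omega
      · right
        right
        right
        have : (n - 1) * 2 ≤ (n - 1) * j := Nat.mul_le_mul_left _ h
        omega
  · intro h
    rw [pw_mk, ns_mk] at h
    change mul (mul _ _) _ ⊓ mul (mul _ _) _ = mul (mul _ _) _ at h
    rw [mk_mul, mk_mul, mk_mul, mk_mul, inf_eq_left, le_iff] at h
    change min (0 * (m - 1) + 1 + 0) 1 < min (0 * (m - 1) + 0 + 1) 1 ∨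
      (min (0 * (m - 1) + 1 + 0) 1 = min (0 * (m - 1) + 0 + 1) 1 ∧
      (if 2 ≤ 0 * (m - 1) + 1 + 0 then n else min (1 * (m - 1) + 0 + 0) n) ≤
        (if 2 ≤ 0 * (m - 1) + 0 + 1 then n else min (0 * (m - 1) + (n - 1) + 0) n)) at h
    split_ifs at h <;> omega

/-- the homomorphism -/
def pi (x : E2 n) : B2 n := mk' x.lev x.ex

theorem pi_mk (j i : ℕ) : pi (E2.mk' j i : E2 n) = mk' j i := by
  unfold pi
  rw [E2.mk_lev, E2.mk_ex]
  apply B2.ext
  · show min (min j 2) 1 = min j 1
    omega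
  · show (if 2 ≤ min j 2 then n else min (if 2 ≤ j then 0 else min i n) n) =
      (if 2 ≤ j then n else min i n)
    split_ifs <;> omega

theorem pi_mul (x y : E2 n) : pi (x * y) = mul (pi x) (pi y) := by
  rw [E2.mul_def, pi_mk]
  unfold pi
  rw [mk_mul]

theorem pi_mono : Monotone (pi (n := n)) := by
  intro x y h
  rw [E2.le_iff] at h
  have h1 := x.hl
  have h2 := y.hl
  have h3 := x.he
  have h4 := y.he
  have h5 := x.h2
  have h6 := y.h2
  rw [le_iff]
  show min y.lev 1 < min x.lev 1 ∨ (min y.lev 1 = min x.lev 1 ∧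
    (if 2 ≤ y.lev then n else min y.ex n) ≤ (if 2 ≤ x.lev then n else min x.ex n))
  split_ifs <;> omega

theorem pi_hom : IsHom (CBiMon.sig (E2 n)) (sig n) pi where
  meet x y := pi_mono.map_min
  join x y := pi_mono.map_max
  mul := pi_mul
  add := pi_mul
  one := pi_mk 0 0
  zero := pi_mk 0 0

theorem pi_surj : Function.Surjective (pi (n := n)) := fun y => ⟨E2.mk' y.lev y.ex, by
  rw [pi_mk, mk_self]⟩

end B2

end Pool.Agent.K9h30.KN
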