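import Mathlib
import Pool.Agent.K9h30.KN.Embed
import Pool.Agent.K9h30.KN.Viol

/-!
# The case `n > m ≥ 2` (with `m = p + 2`)
-/

set_option autoImplicit false

namespace Pool.Agent.K9h30.KN

/-- the chain with the levels `0, …, m`, `m = p + 2`: `m + 2` elements at the level `0`, `m + 1`
elements at the level `1`, and one element at each of the other levels -/
@[ext]
structure E3 (p : ℕ) where
  lev : ℕ
  ex : ℕ
  hl : lev ≤ p + 2
  h0 : ex ≤ p + 3
  h1 : lev = 1 → ex ≤ p + 2
  h2 : 2 ≤ lev → ex = 0

namespace E3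

variable {p : ℕ}

instance : LinearOrder (E3 p) :=
  LinearOrder.lift' (fun x => toLex (x.lev, x.ex)) (by
    intro x y h
    have h1 : (x.lev, x.ex) = (y.lev, y.ex) := by simpa using h
    exact E3.ext (Prod.mk.inj h1).1 (Prod.mk.inj h1).2)

theorem le_iff {x y : E3 p} : x ≤ y ↔ x.lev < y.lev ∨ (x.lev = y.lev ∧ x.ex ≤ y.ex) := by
  show toLex (x.lev, x.ex) ≤ toLex (y.lev, y.ex) ↔ _
  rw [Prod.Lex.toLex_le_toLex]

/-! ### The sum -/

/-- the fine part of a normal form -/
def nex (p l i t : ℕ) : ℕ :=
  if l = 0 then (if t = 0 then min i (p + 2) else p + 3)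
  else if l = 1 then (if t = 0 then min i (p + 2) else p + 2) else 0

theorem nex_00 (p i : ℕ) : nex p 0 i 0 = min i (p + 2) := by simp [nex]
theorem nex_0 {p i t : ℕ} (h : t ≠ 0) : nex p 0 i t = p + 3 := by simp [nex, h]
theorem nex_10 (p i : ℕ) : nex p 1 i 0 = min i (p + 2) := by simp [nex]
theorem nex_1 {p i t : ℕ} (h : t ≠ 0) : nex p 1 i t = p + 2 := by simp [nex, h]
theorem nex_2 {p l i t : ℕ} (h : 2 ≤ l) : nex p l i t = 0 := by
  unfold nex
  rw [if_neg (by omega), if_neg (by omega)]

/-- normal forms: the sum of `l` elements of the level `1`, `i` copies of the atom and `t` copies of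
the top element of the level `0` -/
def nf (l i t : ℕ) : E3 p where
  lev := min l (p + 2)
  ex := nex p l i t
  hl := by omega
  h0 := by
    unfold nex
    split_ifs <;> omega
  h1 := by
    unfold nex
    split_ifs <;> omega
  h2 := by
    intro h
    exact nex_2 (by omega)

theorem nf_lev (l i t : ℕ) : (nf l i t : E3 p).lev = min l (p + 2) := rfl
theorem nf_ex (l i t : ℕ) : (nf l i t : E3 p).ex = nex p l i t := rfl

/-- the number of atoms -/
def fi (x : E3 p) : ℕ := if x.ex = p + 3 then 0 else x.ex

/-- the number of tops -/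
def ti (x : E3 p) : ℕ := if x.ex = p + 3 then 1 else 0

theorem fi_of {x : E3 p} (h : x.ex ≤ p + 2) : fi x = x.ex := by
  unfold fi
  rw [if_neg (by omega)]

theorem ti_of {x : E3 p} (h : x.ex ≤ p + 2) : ti x = 0 := by
  unfold ti
  rw [if_neg (by omega)]

theorem fi_top {x : E3 p} (h : x.ex = p + 3) : fi x = 0 := by
  unfold fi
  rw [if_pos h]

theorem ti_top {x : E3 p} (h : x.ex = p + 3) : ti x = 1 := by
  unfold ti
  rw [if_pos h]

theorem lev_top {x : E3 p} (h : x.ex = p + 3) : x.lev = 0 := by
  have h1 := x.h1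
  have h2 := x.h2
  omega

theorem nf_self (x : E3 p) : nf x.lev (fi x) (ti x) = x := by
  have h1 := x.h1
  have h2 := x.h2
  have hl := x.hl
  have h0 := x.h0
  apply E3.ext
  · rw [nf_lev]
    omega
  · rw [nf_ex]
    by_cases h : x.ex = p + 3
    · rw [lev_top h, ti_top h, nex_0 one_ne_zero, h]
    · rw [fi_of (by omega), ti_of (by omega)]
      rcases Nat.lt_or_ge x.lev 2 with h3 | h3
      · interval_cases x.lev
        · rw [nex_00]
          omega
        · rw [nex_10]
          omega
      · rw [nex_2 h3, h2 h3]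

/-- the sum -/
def add (x y : E3 p) : E3 p := nf (x.lev + y.lev) (fi x + fi y) (ti x + ti y)

theorem nf_congr {l l' i i' t t' : ℕ} (hl : min l (p + 2) = min l' (p + 2))
    (h : nex p l i t = nex p l' i' t') : (nf l i t : E3 p) = nf l' i' t' :=
  E3.ext hl h

theorem nf_cap (l i t : ℕ) : (nf l i t : E3 p) = nf (min l (p + 2)) i t := by
  apply nf_congr
  · omega
  · rcases Nat.lt_or_ge l 2 with h | h
    · congr 1
      omega
    · rw [nex_2 h, nex_2 (by omega)]

theorem fi_nf_00 (i : ℕ) : fi (nf 0 i 0 : E3 p) = min i (p + 2) := by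
  rw [fi_of] <;> rw [nf_ex, nex_00]
  omega

theorem fi_nf_0 {i t : ℕ} (h : t ≠ 0) : fi (nf 0 i t : E3 p) = 0 := by
  rw [fi_top]
  rw [nf_ex, nex_0 h]

theorem ti_nf_00 (i : ℕ) : ti (nf 0 i 0 : E3 p) = 0 := by
  rw [ti_of]
  rw [nf_ex, nex_00]
  omega

theorem ti_nf_0 {i t : ℕ} (h : t ≠ 0) : ti (nf 0 i t : E3 p) = 1 := by
  rw [ti_top]
  rw [nf_ex, nex_0 h]

theorem fi_nf_10 (i : ℕ) : fi (nf 1 i 0 : E3 p) = min i (p + 2) := by
  rw [fi_of] <;> rw [nf_ex, nex_10]
  omega

theorem fi_nf_1 {i t : ℕ} (h : t ≠ 0) : fi (nf 1 i t : E3 p) = p + 2 := by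
  rw [fi_of] <;> rw [nf_ex, nex_1 h]

theorem ti_nf_1 (i t : ℕ) : ti (nf 1 i t : E3 p) = 0 := by
  rw [ti_of]
  rw [nf_ex]
  by_cases h : t = 0
  · rw [h, nex_10]
    omega
  · rw [nex_1 h]

/-- absorption of the normal form -/
theorem nf_add_nf (l i t l' i' t' : ℕ) :
    add (nf l i t) (nf l' i' t') = (nf (l + l') (i + i') (t + t') : E3 p) := by
  unfold add
  rw [nf_lev, nf_lev]
  rcases Nat.lt_or_ge (l + l') 2 with h | h
  · have h1 : l = 0 ∨ l = 1 := by omega
    have h2 : l' = 0 ∨ l' = 1 := by omega
    apply nf_congr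
    · omega
    · rcases h1 with rfl | rfl <;> rcases h2 with rfl | rfl
      · rw [show min 0 (p + 2) + min 0 (p + 2) = 0 by omega]
        by_cases ht : t = 0 <;> by_cases ht' : t' = 0
        · rw [ht, ht', fi_nf_00, fi_nf_00, ti_nf_00, ti_nf_00, nex_00, nex_00]
          omega
        · rw [ti_nf_0 ht', nex_0 (by omega), nex_0 (by omega)]
        · rw [ti_nf_0 ht, nex_0 (by omega), nex_0 (by omega)]
        · rw [ti_nf_0 ht, nex_0 (by omega), nex_0 (by omega)]
      · rw [show min 0 (p + 2) + min 1 (p + 2) = 1 by omega, show 0 + 1 = 1 by omega, ti_nf_1]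
        by_cases ht : t = 0 <;> by_cases ht' : t' = 0
        · rw [ht, ht', fi_nf_00, fi_nf_10, ti_nf_00, nex_10, nex_10]
          omega
        · rw [ht, ti_nf_00, fi_nf_1 ht', nex_10, nex_1 (by omega)]
          omega
        · rw [ti_nf_0 ht, nex_1 (by omega), nex_1 (by omega)]
        · rw [ti_nf_0 ht, nex_1 (by omega), nex_1 (by omega)]
      · rw [show min 1 (p + 2) + min 0 (p + 2) = 1 by omega, show 1 + 0 = 1 by omega, ti_nf_1]
        by_cases ht : t = 0 <;> by_cases ht' : t' = 0
        · rw [ht, ht', fi_nf_00, fi_nf_10, ti_nf_00, nex_10, nex_10]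
          omega
        · rw [ti_nf_0 ht', nex_1 (by omega), nex_1 (by omega)]
        · rw [ht', ti_nf_00, fi_nf_1 ht, nex_10, nex_1 (by omega)]
          omega
        · rw [ti_nf_0 ht', nex_1 (by omega), nex_1 (by omega)]
      · omega
  · apply nf_congr
    · omega
    · rw [nex_2 (by omega), nex_2 h]

theorem add_assoc' (x y z : E3 p) : add (add x y) z = add x (add y z) := by
  rw [← nf_self x, ← nf_self y, ← nf_self z, nf_add_nf, nf_add_nf, nf_add_nf, nf_add_nf]
  congr 1 <;> omega

theorem add_comm' (x y : E3 p) : add x y = add y x := by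
  unfold add
  congr 1 <;> omega

/-- the unit of the sum -/
def bot : E3 p := nf 0 0 0

theorem bot_add (x : E3 p) : add bot x = x := by
  rw [← nf_self x]
  unfold bot
  rw [nf_add_nf]
  congr 1 <;> omega

theorem bot_le (x : E3 p) : bot ≤ x := by
  rw [le_iff]
  unfold bot
  rw [nf_lev, nf_ex, nex_00]
  omega

theorem nf_mono {l l' i i' t t' : ℕ} (h : l < l' ∨ (l = l' ∧ (t < t' ∨ (t = t' ∧ i ≤ i')))) :
    (nf l i t : E3 p) ≤ nf l' i' t' := by
  rw [le_iff, nf_lev, nf_lev, nf_ex, nf_ex]
  rcases h with h | ⟨rfl, h⟩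
  · rcases Nat.lt_or_ge l (p + 2) with h1 | h1
    · omega
    · rw [nex_2 (l := l) (by omega)]
      omega
  · right
    refine ⟨rfl, ?_⟩
    unfold nex
    split_ifs <;> omega

theorem add_mono' (x y z : E3 p) (h : y ≤ z) : add x y ≤ add x z := by
  have hy0 := y.h0
  have hz0 := z.h0
  rw [le_iff] at h
  apply nf_mono
  rcases h with h | ⟨h, h'⟩
  · omega
  · right
    refine ⟨by omega, ?_⟩
    unfold fi ti
    split_ifs <;> omega

/-! ### The product -/

/-- the co-level -/
def co (x : E3 p) : ℕ := p + 2 - x.lev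

/-- the top element of the co-level `c` -/
def g (c : ℕ) : E3 p where
  lev := p + 2 - c
  ex := if p + 2 ≤ c then p + 3 else if p + 1 = c then p + 2 else 0
  hl := by omega
  h0 := by split_ifs <;> omega
  h1 := by split_ifs <;> omega
  h2 := by
    intro h
    rw [if_neg (by omega), if_neg (by omega)]

theorem g_lev (c : ℕ) : (g c : E3 p).lev = p + 2 - c := rfl
theorem g_ex (c : ℕ) : (g c : E3 p).ex = if p + 2 ≤ c then p + 3 else if p + 1 = c then p + 2 else 0 :=
  rfl

theorem co_g (c : ℕ) : co (g c : E3 p) = min c (p + 2) := by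
  unfold co
  rw [g_lev]
  omega

theorem g_anti {c c' : ℕ} (h : c ≤ c') : (g c' : E3 p) ≤ g c := by
  rw [le_iff, g_lev, g_lev, g_ex, g_ex]
  split_ifs <;> omega

theorem g_cap (c : ℕ) : (g (min c (p + 2)) : E3 p) = g c := by
  apply E3.ext
  · rw [g_lev, g_lev]
    omega
  · rw [g_ex, g_ex]
    split_ifs <;> omega

theorem le_g (x : E3 p) : x ≤ g (co x) := by
  have h1 := x.h1
  have h2 := x.h2
  have hl := x.hl
  have h0 := x.h0
  rw [le_iff, g_lev, g_ex]
  unfold co
  split_ifs <;> omega

theorem co_anti {x y : E3 p} (h : x ≤ y) : co y ≤ co x := by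
  rw [le_iff] at h
  unfold co
  omega

theorem co_le (x : E3 p) : co x ≤ p + 2 := by
  unfold co
  omega

theorem lt_of_co {x y : E3 p} (h : co y < co x) : x < y := by
  by_contra h1
  have := co_anti (not_lt.1 h1)
  omega

theorem co_inf (x y : E3 p) : co (x ⊓ y) = max (co x) (co y) := by
  rcases le_total x y with h | h
  · rw [inf_eq_left.2 h, max_eq_left (co_anti h)]
  · rw [inf_eq_right.2 h, max_eq_right (co_anti h)]

/-- the product -/
def mul (x y : E3 p) : E3 p := x ⊓ (y ⊓ g (co x + co y))

theorem co_mul (x y : E3 p) : co (mul x y) = min (co x + co y) (p + 2) := by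
  unfold mul
  rw [co_inf, co_inf, co_g]
  have := co_le x
  have := co_le y
  omega

theorem mul_comm' (x y : E3 p) : mul x y = mul y x := by
  unfold mul
  rw [add_comm (co x), inf_left_comm]

theorem mul_assoc' (x y z : E3 p) : mul (mul x y) z = mul x (mul y z) := by
  have e1 : mul (mul x y) z = x ⊓ (y ⊓ (z ⊓ g (co x + co y + co z))) := by
    have h : (mul x y) ⊓ (z ⊓ g (co (mul x y) + co z)) = x ⊓ (y ⊓ (z ⊓ g (co x + co y + co z))) := by
      rw [co_mul, ← g_cap (min (co x + co y) (p + 2) + co z),
        show min (min (co x + co y) (p + 2) + co z) (p + 2) = min (co x + co y + co z) (p + 2) by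
          omega, g_cap]
      unfold mul
      have h1 : (g (co x + co y + co z) : E3 p) ≤ g (co x + co y) := g_anti (by omega)
      apply le_antisymm
      · simp only [le_inf_iff, inf_le_iff, le_refl, true_or, or_true, and_true]
      · simp only [le_inf_iff, inf_le_iff, le_refl, true_or, or_true, and_true, h1]
    exact h
  have e2 : mul x (mul y z) = x ⊓ (y ⊓ (z ⊓ g (co x + co y + co z))) := by
    have h : x ⊓ (mul y z ⊓ g (co x + co (mul y z))) =
        x ⊓ (y ⊓ (z ⊓ g (co x + co y + co z))) := by
      rw [co_mul, ← g_cap (co x + min (co y + co z) (p + 2)),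
        show min (co x + min (co y + co z) (p + 2)) (p + 2) = min (co x + co y + co z) (p + 2) by
          omega, g_cap]
      unfold mul
      have h1 : (g (co x + co y + co z) : E3 p) ≤ g (co y + co z) := g_anti (by omega)
      apply le_antisymm
      · simp only [le_inf_iff, inf_le_iff, le_refl, true_or, or_true, and_true]
      · simp only [le_inf_iff, inf_le_iff, le_refl, true_or, or_true, and_true, h1]
    exact h
  rw [e1, e2]

/-- the unit of the product -/
def top : E3 p := g 0

theorem le_top' (x : E3 p) : x ≤ top := (le_g x).trans (g_anti (Nat.zero_le _))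

theorem top_mul (x : E3 p) : mul top x = x := by
  unfold mul
  rw [show co (top : E3 p) = 0 by rw [top, co_g]; omega, zero_add, inf_eq_left.2 (le_g x),
    inf_eq_right.2 (le_top' x)]

theorem mul_mono' (x y z : E3 p) (h : y ≤ z) : mul x y ≤ mul x z :=
  inf_le_inf_left _ (inf_le_inf h (g_anti (Nat.add_le_add_left (co_anti h) _)))

theorem add_g (c : ℕ) (z : E3 p) : add (g c) z = g (min c (p + 2) - z.lev) := by
  have hz := z.hl
  have hz1 := z.h1
  have hz2 := z.h2
  have hz0 := z.h0
  apply E3.ext
  · show min (p + 2 - c + z.lev) (p + 2) = p + 2 - (min c (p + 2) - z.lev)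
    omega
  · show nex p (p + 2 - c + z.lev) (fi (g c) + fi z) (ti (g c) + ti z) = _
    rw [g_ex]
    rcases Nat.lt_or_ge (p + 2 - c + z.lev) 2 with h | h
    · rcases Nat.lt_or_ge c (p + 2) with h1 | h1
      · have h2 : c = p + 1 := by omega
        have h3 : z.lev = 0 := by omega
        subst h2
        have h4 : (g (p + 1) : E3 p).ex = p + 2 := by
          rw [g_ex, if_neg (by omega), if_pos rfl]
        rw [h3, show p + 2 - (p + 1) + 0 = 1 by omega, fi_of (by omega : (g (p + 1) : E3 p).ex ≤ p + 2),
          ti_of (by omega : (g (p + 1) : E3 p).ex ≤ p + 2), h4, if_neg (by omega), if_pos (by omega)]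
        by_cases h5 : z.ex = p + 3
        · rw [ti_top h5, nex_1 (by omega)]
        · rw [ti_of (by omega), nex_10]
          omega
      · have h4 : (g c : E3 p).ex = p + 3 := by
          rw [g_ex, if_pos h1]
        rw [ti_top h4]
        have h5 : z.lev = 0 ∨ z.lev = 1 := by omega
        rcases h5 with h5 | h5
        · rw [h5, show p + 2 - c + 0 = 0 by omega, nex_0 (by omega), if_pos (by omega)]
        · rw [h5, show p + 2 - c + 1 = 1 by omega, nex_1 (by omega), if_neg (by omega),
            if_pos (by omega)]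
    · rw [nex_2 h, if_neg (by omega), if_neg (by omega)]

theorem le_add (x z : E3 p) : x ≤ add x z := by
  have h := add_mono' x bot z (bot_le z)
  rwa [add_comm' x bot, bot_add] at h

theorem co_add (x y : E3 p) : co (add x y) = co x - y.lev := by
  unfold co add
  rw [nf_lev]
  have := x.hl
  omega

theorem hemi' (x y z : E3 p) : mul x (add y z) ≤ add (mul x y) z := by
  have h1 : mul x (add y z) ≤ add x z := inf_le_left.trans (le_add x z)
  have h2 : mul x (add y z) ≤ add y z := inf_le_right.trans inf_le_left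
  have h3 : mul x (add y z) ≤ add (g (co x + co y)) z := by
    refine (inf_le_right.trans inf_le_right).trans ?_
    rw [add_g, co_add]
    apply g_anti
    omega
  have key : ∀ s : E3 p, mul x y = s → (s = x ∨ s = y ∨ s = g (co x + co y)) →
      mul x (add y z) ≤ add (mul x y) z := by
    intro s hs h
    rw [hs]
    rcases h with rfl | rfl | rfl
    · exact h1
    · exact h2
    · exact h3
  apply key _ rfl
  unfold mul
  rcases le_total x (y ⊓ g (co x + co y)) with h | h
  · left
    exact inf_eq_left.2 h
  · right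
    rw [inf_eq_right.2 h]
    rcases le_total y (g (co x + co y)) with h | h
    · left
      exact inf_eq_left.2 h
    · right
      exact inf_eq_right.2 h

instance : CommMonoid (E3 p) where
  mul := mul
  one := top
  mul_assoc := mul_assoc'
  one_mul := top_mul
  mul_one x := (mul_comm' x top).trans (top_mul x)
  mul_comm := mul_comm'

instance : Add (E3 p) := ⟨add⟩
instance : Zero (E3 p) := ⟨bot⟩

instance : AddCommMonoid (E3 p) where
  add_assoc := add_assoc'
  zero_add := bot_add
  add_zero x := (add_comm' x bot).trans (bot_add x)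
  add_comm := add_comm'
  nsmul := nsmulRec

instance : CBiMon (E3 p) where
  mul_sup' x y z := by
    rcases le_total y z with h | h
    · rw [sup_eq_right.2 h, sup_eq_right.2 (show x * y ≤ x * z from mul_mono' x y z h)]
    · rw [sup_eq_left.2 h, sup_eq_left.2 (show x * z ≤ x * y from mul_mono' x z y h)]
  add_inf' x y z := by
    rcases le_total y z with h | h
    · rw [inf_eq_left.2 h, inf_eq_left.2 (show x + y ≤ x + z from add_mono' x y z h)]
    · rw [inf_eq_right.2 h, inf_eq_right.2 (show x + z ≤ x + y from add_mono' x z y h)]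
  hemi := hemi'

theorem mul_def (x y : E3 p) : x * y = x ⊓ (y ⊓ g (co x + co y)) := rfl
theorem add_def (x y : E3 p) : x + y = nf (x.lev + y.lev) (fi x + fi y) (ti x + ti y) := rfl
theorem one_def : (1 : E3 p) = g 0 := rfl
theorem zero_def : (0 : E3 p) = nf 0 0 0 := rfl

theorem co_one : co (1 : E3 p) = 0 := by
  rw [one_def, co_g]
  omega

theorem co_prod {ι : Type} (s : Finset ι) (a : ι → E3 p) (d : E3 p) :
    co ((∏ i ∈ s, a i) * d) = min (∑ i ∈ s, co (a i) + co d) (p + 2) := by
  classical
  induction s using Finset.induction_on with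
  | empty =>
    rw [Finset.prod_empty, Finset.sum_empty, one_mul]
    have := co_le d
    omega
  | insert i s hi ih =>
    rw [Finset.prod_insert hi, Finset.sum_insert hi, mul_assoc]
    refine (co_mul _ _).trans ?_
    rw [ih]
    omega

theorem sum_nf {ι : Type} (s : Finset ι) (b : ι → E3 p) (c : E3 p) :
    ∑ i ∈ s, b i + c = nf (∑ i ∈ s, (b i).lev + c.lev) (∑ i ∈ s, fi (b i) + fi c)
      (∑ i ∈ s, ti (b i) + ti c) := by
  classical
  induction s using Finset.induction_on with
  | empty => simp [nf_self]
  | insert i s hi ih =>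
    rw [Finset.sum_insert hi, Finset.sum_insert hi, Finset.sum_insert hi, Finset.sum_insert hi,
      add_assoc, ih]
    conv_lhs => rw [← nf_self (b i)]
    refine (nf_add_nf _ _ _ _ _ _).trans ?_
    congr 1 <;> omega

theorem eq_one {x : E3 p} (h : co x = 0) : x = 1 := by
  have h1 := x.hl
  have h2 := x.h2
  unfold co at h
  rw [one_def]
  apply E3.ext
  · rw [g_lev]
    omega
  · rw [g_ex, if_neg (by omega), if_neg (by omega)]
    omega

theorem pow_g {x : E3 p} (h : co x = 1) (k : ℕ) : x ^ (k + 2) = g (k + 2) := by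
  induction k with
  | zero =>
    rw [zero_add, pow_two, mul_def, h, inf_eq_right.2, inf_eq_right.2]
    all_goals
      first
      | exact (lt_of_co (by rw [co_g, h]; omega)).le
      | exact inf_le_right.trans (lt_of_co (by rw [co_g, h]; omega)).le
  | succ k ih =>
    rw [pow_succ, ih, mul_def, co_g, h, ← g_cap (min (k + 2) (p + 2) + 1),
      show min (min (k + 2) (p + 2) + 1) (p + 2) = min (k + 1 + 2) (p + 2) by omega, g_cap]
    have h1 : (g (k + 1 + 2) : E3 p) ≤ x := (lt_of_co (by rw [co_g, h]; omega)).le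
    rw [inf_eq_right.2 h1, inf_eq_right.2 (g_anti (by omega))]

theorem le_of_mem {ι : Type} [Fintype ι] (a : ι → E3 p) (d : E3 p) (i : ι) :
    (∏ i, a i) * d ≤ a i := by
  classical
  rw [← Finset.mul_prod_erase _ _ (Finset.mem_univ i), mul_assoc]
  exact inf_le_left

theorem eq_bot {x : E3 p} (h0 : x.lev = 0) (h1 : fi x = 0) (h2 : ti x = 0) : x = 0 := by
  rw [← nf_self x, h0, h1, h2]
  rfl

theorem q : QMN (p + 2) (p + 3) (E3 p) := by
  intro a b c d hN
  -- the two kinds of multisets
  have h1 : ∀ i, a i * ((∏ i, a i) * d) ≤ b i + (∑ i, b i + c) := by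
    intro i
    have h := hN (Fin.cons i id)
    rw [Fin.prod_univ_succ, Fin.sum_univ_succ] at h
    simpa only [Fin.cons_zero, Fin.cons_succ, id, mul_assoc, add_assoc] using h
  have h2 : ∀ i, (a i) ^ (p + 3) * d ≤ ∑ _k : Fin (p + 3), b i + c := by
    intro i
    have h := hN fun _ => i
    rwa [Finset.prod_const, Finset.card_univ, Fintype.card_fin] at h
  have h2c : ∀ i, co ((a i) ^ (p + 3) * d) = min ((p + 3) * co (a i) + co d) (p + 2) := by
    intro i
    have := co_prod (Finset.univ : Finset (Fin (p + 3))) (fun _ => a i) d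
    rwa [Finset.prod_const, Finset.sum_const, Finset.card_univ, Fintype.card_fin, smul_eq_mul] at this
  have h2l : ∀ i, (∑ _k : Fin (p + 3), b i + c) = nf ((p + 3) * (b i).lev + c.lev)
      ((p + 3) * fi (b i) + fi c) ((p + 3) * ti (b i) + ti c) := by
    intro i
    rw [sum_nf]
    simp only [Finset.sum_const, Finset.card_univ, Fintype.card_fin, smul_eq_mul]
  by_contra hcon
  rw [not_le] at hcon
  set L := (∏ i, a i) * d with hL
  set R := ∑ i, b i + c with hR
  have hcoL : co L = min (∑ i, co (a i) + co d) (p + 2) := co_prod _ _ _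
  have hRn : R = nf (∑ i, (b i).lev + c.lev) (∑ i, fi (b i) + fi c) (∑ i, ti (b i) + ti c) :=
    sum_nf _ _ _
  have hlevR : R.lev = min (∑ i, (b i).lev + c.lev) (p + 2) := by rw [hRn, nf_lev]
  have hlevL : L.lev = p + 2 - co L := by
    have := L.hl
    unfold co
    omega
  have hle := le_iff.1 hcon.le
  have hnle : ¬ L ≤ R := not_le.2 hcon
  rw [le_iff] at hnle
  rcases hle with hlt | ⟨heq, -⟩
  · -- different levels
    obtain ⟨i, hi1, hi2⟩ : ∃ i, co (a i) = 0 ∧ (b i).lev = 0 := by
      by_contra hcon
      push Not at hcon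
      have h5 : ∑ _i : Fin (p + 2), 1 ≤ ∑ i : Fin (p + 2), (co (a i) + (b i).lev) :=
        Finset.sum_le_sum fun i _ => by
          have := hcon i
          omega
      rw [Finset.sum_add_distrib] at h5
      simp only [Finset.sum_const, Finset.card_univ, Fintype.card_fin, smul_eq_mul, mul_one] at h5
      omega
    have h3 := h1 i
    rw [eq_one hi1, one_mul, le_iff] at h3
    have h4 : (b i + R).lev = min ((b i).lev + R.lev) (p + 2) := rfl
    have := R.hl
    omega
  · have hexlt : R.ex < L.ex := by omega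
    have hL01 : L.lev < 2 := by
      by_contra h
      have := L.h2 (by omega)
      omega
    have hLe0 := L.h0
    have hLe1 := L.h1
    rcases Nat.lt_or_ge L.lev 1 with hl | hl
    · -- level 0
      have hb0 : ∑ i, (b i).lev = 0 := by omega
      have hb0' : ∀ i, (b i).lev = 0 := fun i => by
        have : (b i).lev ≤ ∑ i, (b i).lev :=
          Finset.single_le_sum (f := fun i => (b i).lev) (fun _ _ => Nat.zero_le _)
            (Finset.mem_univ i)
        omega
      have hc0 : c.lev = 0 := by omega
      have h3 : ∀ i, L ≤ b i + R := by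
        intro i
        refine le_trans (le_of_eq ?_) (h1 i)
        have hLa : L ≤ a i := le_of_mem a d i
        have hcL : co L = p + 2 := by omega
        rw [mul_def, hcL, ← g_cap (co (a i) + (p + 2)), show min (co (a i) + (p + 2)) (p + 2) = co L by
          omega, inf_eq_left.2 (le_g L), inf_eq_right.2 hLa]
      have ht : ∑ i, ti (b i) + ti c = 0 := by
        by_contra h
        have h4 : R.ex = p + 3 := by rw [hRn, nf_ex, hb0, hc0, nex_0 h]
        omega
      have hti : ∀ i, ti (b i) = 0 := fun i => by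
        have : ti (b i) ≤ ∑ i, ti (b i) :=
          Finset.single_le_sum (f := fun i => ti (b i)) (fun _ _ => Nat.zero_le _)
            (Finset.mem_univ i)
        omega
      have hf : ∀ i, 1 ≤ fi (b i) := by
        intro i
        by_contra h
        have h4 := h3 i
        rw [eq_bot (hb0' i) (by omega) (hti i), zero_add] at h4
        exact absurd h4 (not_le.2 hcon)
      have hsf : p + 2 ≤ ∑ i, fi (b i) := by
        have h5 : ∑ _i : Fin (p + 2), 1 ≤ ∑ i : Fin (p + 2), fi (b i) :=
          Finset.sum_le_sum fun i _ => hf i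
        simpa only [Finset.sum_const, Finset.card_univ, Fintype.card_fin, smul_eq_mul, mul_one]
          using h5
      have h4 := h3 0
      have h5 : b 0 + R = R := by
        rw [hRn]
        conv_lhs => rw [← nf_self (b 0)]
        refine (nf_add_nf _ _ _ _ _ _).trans ?_
        rw [hb0' 0, hb0, hc0, hti 0, ht]
        apply nf_congr
        · omega
        · rw [show 0 + (0 + 0) = 0 by omega, nex_00, nex_00]
          omega
      rw [h5] at h4
      exact absurd h4 (not_le.2 hcon)
    · -- level 1
      have hl1 : L.lev = 1 := by omega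
      have hSB : ∑ i, (b i).lev + c.lev = 1 := by omega
      have hCA : ∑ i, co (a i) + co d = p + 1 := by omega
      have hRt : ∑ i, ti (b i) + ti c = 0 := by
        by_contra h
        have h4 : R.ex = p + 2 := by rw [hRn, nf_ex, hSB, nex_1 h]
        omega
      have hti : ∀ i, ti (b i) = 0 := fun i => by
        have : ti (b i) ≤ ∑ i, ti (b i) :=
          Finset.single_le_sum (f := fun i => ti (b i)) (fun _ _ => Nat.zero_le _)
            (Finset.mem_univ i)
        omega
      rcases Nat.lt_or_ge c.lev 1 with hc | hc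
      · -- an element `b i₀` of the level 1
        have hSB1 : ∑ i, (b i).lev = 1 := by omega
        obtain ⟨i₀, hi₀⟩ : ∃ i, (b i).lev ≠ 0 := by
          by_contra h
          push Not at h
          have : ∑ i, (b i).lev = 0 := Finset.sum_eq_zero fun i _ => h i
          omega
        have hb0 : ∀ i, i ≠ i₀ → (b i).lev = 0 := by
          intro i hi
          have h5 := Finset.sum_le_sum_of_subset (f := fun i => (b i).lev)
            (Finset.subset_univ ({i, i₀} : Finset (Fin (p + 2))))
          rw [Finset.sum_pair hi] at h5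
          omega
        have hco : ∀ i, i ≠ i₀ → 1 ≤ co (a i) := by
          intro i hi
          by_contra h
          have h5 := h2 i
          have h6 := h2c i
          rw [h2l, le_iff, nf_lev, hb0 i hi] at h5
          unfold co at h6
          have : co (a i) = 0 := by omega
          unfold co at this
          have := d.hl
          unfold co at hCA
          rw [show p + 2 - (a i).lev = 0 by omega] at h6
          omega
        have hse : ∑ i, co (a i) = co (a i₀) + ∑ i ∈ Finset.univ.erase i₀, co (a i) :=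
          (Finset.add_sum_erase _ _ (Finset.mem_univ i₀)).symm
        obtain ⟨i, hi⟩ : ∃ i : Fin (p + 2), i ≠ i₀ := exists_ne i₀
        have hsi : ∑ i ∈ Finset.univ.erase i₀, co (a i) =
            co (a i) + ∑ i ∈ (Finset.univ.erase i₀).erase i, co (a i) :=
          (Finset.add_sum_erase _ _ (Finset.mem_erase.2 ⟨hi, Finset.mem_univ i⟩)).symm
        have hs2 : p ≤ ∑ i ∈ (Finset.univ.erase i₀).erase i, co (a i) := by
          have h5 : ∑ _i ∈ (Finset.univ.erase i₀).erase i, 1 ≤
              ∑ i ∈ (Finset.univ.erase i₀).erase i, co (a i) :=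
            Finset.sum_le_sum fun j hj => hco j (Finset.mem_erase.1 (Finset.mem_erase.1 hj).2).1
          rw [Finset.sum_const, smul_eq_mul, mul_one, Finset.card_erase_of_mem
            (Finset.mem_erase.2 ⟨hi, Finset.mem_univ i⟩), Finset.card_erase_of_mem
            (Finset.mem_univ i₀), Finset.card_univ, Fintype.card_fin] at h5
          omega
        have h5 := hco i hi
        have h6 : co (a i) = 1 := by omega
        have h7 : co d = 0 := by omega
        have h8 := h2 i
        rw [eq_one h7, mul_one, pow_g h6 (p + 1), h2l, hb0 i hi, hti i] at h8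
        have hc0 : c.lev = 0 := by omega
        have htc : ti c = 0 := by omega
        rw [hc0, htc, show (p + 3) * 0 + 0 = 0 by omega, le_iff, nf_lev, nf_ex, nex_00, g_lev, g_ex,
          if_pos (by omega)] at h8
        omega
      · -- `c` is of the level 1
        have hc1 : c.lev = 1 := by omega
        have hb0 : ∀ i, (b i).lev = 0 := fun i => by
          have : (b i).lev ≤ ∑ i, (b i).lev :=
            Finset.single_le_sum (f := fun i => (b i).lev) (fun _ _ => Nat.zero_le _)
              (Finset.mem_univ i)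
          omega
        rcases Nat.lt_or_ge (co d) (p + 1) with hd | hd
        · obtain ⟨i, hi⟩ : ∃ i, co (a i) = 0 := by
            by_contra h
            push Not at h
            have h5 : ∑ _i : Fin (p + 2), 1 ≤ ∑ i : Fin (p + 2), co (a i) :=
              Finset.sum_le_sum fun i _ => by
                have := h i
                omega
            simp only [Finset.sum_const, Finset.card_univ, Fintype.card_fin, smul_eq_mul,
              mul_one] at h5
            omega
          have h5 := h2 i
          rw [eq_one hi, one_pow, one_mul, h2l, hb0 i, hc1, le_iff, nf_lev] at h5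
          unfold co at hd
          have := d.hl
          omega
        · have hCA0 : ∑ i, co (a i) = 0 := by omega
          have ha1 : ∀ i, a i = 1 := fun i => eq_one (by
            have : co (a i) ≤ ∑ i, co (a i) :=
              Finset.single_le_sum (f := fun i => co (a i)) (fun _ _ => Nat.zero_le _)
                (Finset.mem_univ i)
            omega)
          have hf : ∀ i, 1 ≤ fi (b i) := by
            intro i
            by_contra h
            have h4 := h1 i
            rw [eq_bot (hb0 i) (by omega) (hti i), zero_add, ha1 i, one_mul] at h4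
            exact absurd h4 (not_le.2 hcon)
          have hsf : p + 2 ≤ ∑ i, fi (b i) := by
            have h5 : ∑ _i : Fin (p + 2), 1 ≤ ∑ i : Fin (p + 2), fi (b i) :=
              Finset.sum_le_sum fun i _ => hf i
            simpa only [Finset.sum_const, Finset.card_univ, Fintype.card_fin, smul_eq_mul, mul_one]
              using h5
          have h5 : R.ex = p + 2 := by
            rw [hRn, nf_ex, hSB, hRt, nex_10]
            omega
          have := L.h1 hl1
          omega

theorem subreduct {n : ℕ} (hn : p + 2 ≤ n) : IsSubreduct (p + 2) n (E3 p) (CBiMon.sig (E3 p)) :=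
  subreduct_up hn (subreduct_of_q q)

end E3

/-- the quotient, where the two largest elements of the level `0` are identified -/
@[ext]
structure B3 (p : ℕ) where
  lev : ℕ
  ex : ℕ
  hl : lev ≤ p + 2
  h0 : ex ≤ p + 2
  h2 : 2 ≤ lev → ex = 0

namespace B3

variable {p : ℕ}

instance : LinearOrder (B3 p) :=
  LinearOrder.lift' (fun x => toLex (x.lev, x.ex)) (by
    intro x y h
    have h1 : (x.lev, x.ex) = (y.lev, y.ex) := by simpa using h
    exact B3.ext (Prod.mk.inj h1).1 (Prod.mk.inj h1).2)

theorem le_iff {x y : B3 p} : x ≤ y ↔ x.lev < y.lev ∨ (x.lev = y.lev ∧ x.ex ≤ y.ex) := by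
  show toLex (x.lev, x.ex) ≤ toLex (y.lev, y.ex) ↔ _
  rw [Prod.Lex.toLex_le_toLex]

/-- normal forms of sums -/
def nf (l i : ℕ) : B3 p := ⟨min l (p + 2), if 2 ≤ l then 0 else min i (p + 2), by omega,
  by split_ifs <;> omega, by
    intro h
    rw [if_pos (by omega)]⟩

theorem nf_lev (l i : ℕ) : (nf l i : B3 p).lev = min l (p + 2) := rfl
theorem nf_ex (l i : ℕ) : (nf l i : B3 p).ex = if 2 ≤ l then 0 else min i (p + 2) := rfl

theorem nf_self (x : B3 p) : nf x.lev x.ex = x := by
  have h1 := x.hl
  have h2 := x.h0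
  have h3 := x.h2
  apply B3.ext
  · rw [nf_lev]
    omega
  · rw [nf_ex]
    split_ifs <;> omega

/-- the sum -/
def add (x y : B3 p) : B3 p := nf (x.lev + y.lev) (x.ex + y.ex)

theorem nf_add (l i l' i' : ℕ) : add (nf l i) (nf l' i') = (nf (l + l') (i + i') : B3 p) := by
  unfold add
  apply B3.ext
  · rw [nf_lev, nf_lev, nf_lev, nf_lev]
    omega
  · rw [nf_ex, nf_ex, nf_ex, nf_ex, nf_lev, nf_lev]
    split_ifs <;> omega

/-- the co-level -/
def co (x : B3 p) : ℕ := p + 2 - x.lev

/-- the top element of the co-level `c` -/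
def g (c : ℕ) : B3 p := ⟨p + 2 - c, if p + 1 ≤ c then p + 2 else 0, by omega,
  by split_ifs <;> omega, by
    intro h
    rw [if_neg (by omega)]⟩

theorem g_lev (c : ℕ) : (g c : B3 p).lev = p + 2 - c := rfl
theorem g_ex (c : ℕ) : (g c : B3 p).ex = if p + 1 ≤ c then p + 2 else 0 := rfl

theorem co_g (c : ℕ) : co (g c : B3 p) = min c (p + 2) := by
  unfold co
  rw [g_lev]
  omega

theorem g_anti {c c' : ℕ} (h : c ≤ c') : (g c' : B3 p) ≤ g c := by
  rw [le_iff, g_lev, g_lev, g_ex, g_ex]
  split_ifs <;> omega

theorem g_cap (c : ℕ) : (g (min c (p + 2)) : B3 p) = g c := by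
  apply B3.ext
  · rw [g_lev, g_lev]
    omega
  · rw [g_ex, g_ex]
    split_ifs <;> omega

/-- the product -/
def mul (x y : B3 p) : B3 p := x ⊓ (y ⊓ g (co x + co y))

theorem g_mul (c c' : ℕ) : mul (g c) (g c') = (g (c + c') : B3 p) := by
  unfold mul
  rw [co_g, co_g, ← g_cap (min c (p + 2) + min c' (p + 2)),
    show min (min c (p + 2) + min c' (p + 2)) (p + 2) = min (c + c') (p + 2) by omega, g_cap,
    inf_eq_right.2 (g_anti (Nat.le_add_left _ _)), inf_eq_right.2 (g_anti (Nat.le_add_right _ _))]

/-- the algebra -/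
def sig (p : ℕ) : Sig (B3 p) where
  meet x y := x ⊓ y
  join x y := x ⊔ y
  mul := mul
  add := add
  one := g 0
  zero := nf 0 0

theorem pw_g (c k : ℕ) : (sig p).pw (g c) k = g (c * k) := by
  induction k with
  | zero => rfl
  | succ k ih =>
    show mul ((sig p).pw (g c) k) (g c) = _
    rw [ih, g_mul]
    rfl

theorem ns_nf (l i k : ℕ) : (sig p).ns (nf l i) k = nf (l * k) (i * k) := by
  induction k with
  | zero => rfl
  | succ k ih =>
    show add ((sig p).ns (nf l i) k) (nf l i) = _
    rw [ih, nf_add]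
    rfl

theorem not_sub {n : ℕ} (hn : p + 2 < n) : ¬ IsSubreduct (p + 2) n (B3 p) (sig p) := by
  refine not_subreduct (by omega) (sig p) (g 1) (nf 0 1) (g 0) (nf 1 0) (nf 0 0) (g 0) ?_ ?_
  · intro j hj
    rw [pw_g, pw_g, ns_nf, ns_nf]
    show mul (mul _ _) _ ⊓ add (add _ _) _ = mul (mul _ _) _
    rw [g_mul, g_mul, nf_add, nf_add, inf_eq_left, le_iff, g_lev, g_ex, nf_lev, nf_ex]
    split_ifs <;> omega
  · intro h
    rw [pw_g, ns_nf] at h
    change mul (mul _ _) _ ⊓ add (add _ _) _ = mul (mul _ _) _ at h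
    rw [g_mul, g_mul, nf_add, nf_add, inf_eq_left, le_iff, g_lev, g_ex, nf_lev, nf_ex] at h
    split_ifs at h <;> omega

/-- the homomorphism -/
def pi (x : E3 p) : B3 p := ⟨x.lev, min x.ex (p + 2), x.hl, by omega, by
  intro h
  rw [x.h2 h]
  omega⟩

theorem pi_lev (x : E3 p) : (pi x).lev = x.lev := rfl
theorem pi_ex (x : E3 p) : (pi x).ex = min x.ex (p + 2) := rfl

theorem pi_add (x y : E3 p) : pi (x + y) = add (pi x) (pi y) := by
  have hx := x.h0
  have hy := y.h0
  rw [E3.add_def]
  unfold add
  apply B3.ext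
  · rfl
  · rw [nf_ex, pi_ex, E3.nf_ex, pi_lev, pi_lev, pi_ex, pi_ex]
    rcases Nat.lt_or_ge (x.lev + y.lev) 2 with h | h
    · rw [if_neg (by omega)]
      unfold E3.nex
      by_cases h1 : x.ex = p + 3
      · rw [E3.ti_top h1]
        split_ifs <;> omega
      · by_cases h2 : y.ex = p + 3
        · rw [E3.ti_top h2]
          have h3 : ¬ (E3.ti x + 1 = 0) := by omega
          simp only [h3, if_false]
          split_ifs <;> omega
        · rw [E3.ti_of (by omega : x.ex ≤ p + 2), E3.ti_of (by omega : y.ex ≤ p + 2),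
            E3.fi_of (by omega : x.ex ≤ p + 2), E3.fi_of (by omega : y.ex ≤ p + 2)]
          split_ifs <;> omega
    · rw [if_pos h, E3.nex_2 h]
      rfl

theorem pi_mono : Monotone (pi (p := p)) := by
  intro x y h
  rw [E3.le_iff] at h
  rw [le_iff, pi_lev, pi_lev, pi_ex, pi_ex]
  omega

theorem pi_g (c : ℕ) : pi (E3.g c : E3 p) = g c := by
  apply B3.ext
  · rfl
  · rw [pi_ex, E3.g_ex, g_ex]
    split_ifs <;> omega

theorem pi_mul (x y : E3 p) : pi (x * y) = mul (pi x) (pi y) := by
  rw [E3.mul_def]
  unfold mul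
  rw [pi_mono.map_min, pi_mono.map_min, pi_g]
  rfl

theorem pi_hom : IsHom (CBiMon.sig (E3 p)) (sig p) pi where
  meet _ _ := pi_mono.map_min
  join _ _ := pi_mono.map_max
  mul := pi_mul
  add := pi_add
  one := pi_g 0
  zero := by
    apply B3.ext
    · rfl
    · show min (E3.nex p 0 0 0) (p + 2) = _
      rw [E3.nex_00]
      show _ = min 0 (p + 2)
      omega

theorem pi_surj : Function.Surjective (pi (p := p)) := fun y => ⟨⟨y.lev, y.ex, y.hl, by
    have := y.h0
    omega, fun _ => y.h0, y.h2⟩, by
  have := y.h0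
  apply B3.ext
  · rfl
  · rw [pi_ex]
    show min y.ex (p + 2) = y.ex
    omega⟩

end B3

end Pool.Agent.K9h30.KN
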